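import Mathlib

/-!
Common definitions for the proof of Filliman's lower bound (MP_3bca80_gt, Q1).
-/

namespace Fil27

open MeasureTheory ProbabilityTheory

/-- Euclidean space of dimension `d`. -/
abbrev V (d : ℕ) := EuclideanSpace ℝ (Fin d)

/-- The cone generated by a finite family of vectors. -/
def coneOf {ι : Type*} [Fintype ι] {d : ℕ} (z : ι → V d) : Set (V d) :=
  {y | ∃ a : ι → ℝ, (∀ i, 0 ≤ a i) ∧ y = ∑ i, a i • z i}

/-- The matrix `∑ i, w i • (z i) (z i)ᵀ`. -/
def frameM {ι : Type*} [Fintype ι] {d : ℕ} (w : ι → ℝ) (z : ι → V d) :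
    Matrix (Fin d) (Fin d) ℝ :=
  Matrix.of fun a b => ∑ i, w i * (z i a * z i b)

/-- The integral of `exp (-h)` over the cone generated by the family. -/
noncomputable def coneInt {ι : Type*} [Fintype ι] {d : ℕ} (h : V d →ₗ[ℝ] ℝ) (z : ι → V d) :
    ENNReal :=
  ∫⁻ y in coneOf z, ENNReal.ofReal (Real.exp (-(h y)))

/-- Product of the `d` balanced block sizes of `N`. -/
def balProd (N d : ℕ) : ℕ := (N / d + 1) ^ (N % d) * (N / d) ^ (d - N % d)

/-- The standard Gaussian density. -/
noncomputable def gphi (x : ℝ) : ℝ := gaussianPDFReal 0 1 x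

/-- The standard Gaussian upper tail. -/
noncomputable def gQ (x : ℝ) : ℝ := (gaussianReal 0 1).real (Set.Ioi x)

/-- `-log` of the upper tail: pushes the Gaussian to the exponential law. -/
noncomputable def gE (x : ℝ) : ℝ := -Real.log (gQ x)

/-- The Gaussian hazard rate. -/
noncomputable def gr (x : ℝ) : ℝ := gphi x / gQ x

/-- The function `|x| - 1 + exp (-|x|)`. -/
noncomputable def kap (x : ℝ) : ℝ := |x| - 1 + Real.exp (-|x|)

/-- `E kap (log r(X) - log r(X'))` for independent standard Gaussians. -/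
noncomputable def gam0 : ℝ :=
  ∫ x, ∫ y, kap (Real.log (gr x) - Real.log (gr y)) ∂(gaussianReal 0 1) ∂(gaussianReal 0 1)

end Fil27
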