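import Mathlib
import Pool.Agent.helper27.Fil.Defs

namespace Fil27

open MeasureTheory ProbabilityTheory
open scoped RealInnerProductSpace

variable {d : ℕ}

/-- the density of the standard Gaussian measure -/
noncomputable def dens (d : ℕ) (θ : V d) : ℝ :=
  Real.exp (-(‖θ‖ ^ 2 / 2) - d / 2 * Real.log (2 * Real.pi))

lemma dens_pos (θ : V d) : 0 < dens d θ := Real.exp_pos _

lemma dens_measurable : Measurable (dens d) := by
  unfold dens; fun_prop

lemma ofReal_dens (θ : V d) : ((dens d θ : ℝ) : ℂ) =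
    Complex.exp (-(1 / 2 : ℂ) * ‖θ‖ ^ 2) * (2 * Real.pi : ℂ) ^ (-(d / 2 : ℂ)) := by
  have hpi : (0 : ℝ) < 2 * Real.pi := by positivity
  rw [dens, sub_eq_add_neg, Real.exp_add]
  push_cast
  congr 1
  · congr 1; ring
  · rw [Complex.cpow_def_of_ne_zero (by exact_mod_cast hpi.ne')]
    congr 1
    rw [show (2 * (Real.pi : ℂ)) = ((2 * Real.pi : ℝ) : ℂ) by push_cast; ring,
      ← Complex.ofReal_log hpi.le]
    ring_nf

lemma dens_integrable : Integrable (dens d) := by
  have h1 := GaussianFourier.integrable_cexp_neg_mul_sq_norm_add (V := V d) (b := 1 / 2)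
    (by norm_num) 0 0
  have h2 : Integrable (fun θ : V d => ((dens d θ : ℝ) : ℂ)) := by
    have h3 := h1.mul_const ((2 * Real.pi : ℂ) ^ (-(d / 2 : ℂ)))
    refine h3.congr (Filter.Eventually.of_forall fun θ => ?_)
    simp only
    rw [ofReal_dens]
    simp
  have := h2.re
  simpa using this

lemma stdG_density : stdGaussian (V d) =
    (volume : Measure (V d)).withDensity (fun θ => ENNReal.ofReal (dens d θ)) := by
  have : IsFiniteMeasure ((volume : Measure (V d)).withDensity
      (fun θ => ENNReal.ofReal (dens d θ))) := isFiniteMeasure_withDensity_ofReal dens_integrable.2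
  apply Measure.ext_of_charFun
  funext t
  rw [charFun_stdGaussian, charFun_apply]
  rw [integral_withDensity_eq_integral_toReal_smul dens_measurable.ennreal_ofReal]
  · have h1 : ∀ θ : V d, (ENNReal.ofReal (dens d θ)).toReal • Complex.exp (⟪θ, t⟫ * Complex.I) =
        Complex.exp (-(1 / 2 : ℂ) * ‖θ‖ ^ 2 + Complex.I * ⟪t, θ⟫) *
          (2 * Real.pi : ℂ) ^ (-(d / 2 : ℂ)) := by
      intro θ
      rw [ENNReal.toReal_ofReal (dens_pos θ).le, Complex.real_smul, ofReal_dens, Complex.exp_add,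
        real_inner_comm]
      ring
    simp only [h1]
    rw [integral_mul_const, GaussianFourier.integral_cexp_neg_mul_sq_norm_add (by norm_num)]
    have hpi : (2 * Real.pi : ℂ) ≠ 0 := by exact_mod_cast (by positivity : (2 * Real.pi : ℝ) ≠ 0)
    have h2 : (Real.pi / (1 / 2) : ℂ) = 2 * Real.pi := by ring
    rw [h2]
    simp only [finrank_euclideanSpace, Fintype.card_fin, Complex.I_sq]
    rw [mul_assoc, mul_comm (Complex.exp _), ← mul_assoc, Complex.cpow_neg, mul_inv_cancel₀, one_mul]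
    · congr 1; ring
    · rw [Complex.cpow_ne_zero_iff]
      exact Or.inl hpi
  · exact Filter.Eventually.of_forall fun θ => ENNReal.ofReal_lt_top

/-- Jensen for `exp`, with values in `ENNReal`. -/
lemma jensen_exp {Ω : Type*} [MeasurableSpace Ω] {μ : Measure Ω} [IsProbabilityMeasure μ]
    {G : Ω → ℝ} (hG : Integrable G μ) :
    ENNReal.ofReal (Real.exp (∫ θ, G θ ∂μ)) ≤ ∫⁻ θ, ENNReal.ofReal (Real.exp (G θ)) ∂μ := by
  by_cases hi : Integrable (fun θ => Real.exp (G θ)) μ
  · rw [← ofReal_integral_eq_lintegral_ofReal hi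
      (Filter.Eventually.of_forall fun θ => (Real.exp_pos _).le)]
    refine ENNReal.ofReal_le_ofReal ?_
    exact convexOn_exp.map_integral_le Real.continuous_exp.continuousOn isClosed_univ
      (Filter.Eventually.of_forall fun _ => Set.mem_univ _) hG hi
  · have hm : AEStronglyMeasurable (fun θ => Real.exp (G θ)) μ :=
      Real.continuous_exp.comp_aestronglyMeasurable hG.1
    have : ∫⁻ θ, ENNReal.ofReal (Real.exp (G θ)) ∂μ = ⊤ := by
      by_contra hne
      apply hi
      refine ⟨hm, ?_⟩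
      rw [hasFiniteIntegral_iff_ofReal (Filter.Eventually.of_forall fun θ => (Real.exp_pos _).le)]
      exact lt_of_le_of_ne le_top hne
    rw [this]
    exact le_top

lemma map_inner_stdG {u : V d} (hu : ‖u‖ = 1) :
    (stdGaussian (V d)).map (fun θ => ⟪u, θ⟫) = gaussianReal 0 1 := by
  have h1 : (fun θ : V d => ⟪u, θ⟫) = ⇑(innerSL ℝ u) := rfl
  rw [h1, IsGaussian.map_eq_gaussianReal, integral_strongDual_stdGaussian,
    variance_dual_stdGaussian, innerSL_apply_norm, hu]
  simp

lemma mp_inner {u : V d} (hu : ‖u‖ = 1) :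
    MeasurePreserving (fun θ => ⟪u, θ⟫) (stdGaussian (V d)) (gaussianReal 0 1) :=
  ⟨by fun_prop, map_inner_stdG hu⟩

lemma mp_innerdiv {u : V d} (hu : u ≠ 0) :
    MeasurePreserving (fun θ => ⟪u, θ⟫ / ‖u‖) (stdGaussian (V d)) (gaussianReal 0 1) := by
  have h1 : ‖(‖u‖)⁻¹ • u‖ = 1 := by
    rw [norm_smul, norm_inv, norm_norm, inv_mul_cancel₀ (norm_ne_zero_iff.2 hu)]
  have h2 := mp_inner h1
  have h3 : (fun θ : V d => ⟪(‖u‖)⁻¹ • u, θ⟫) = fun θ => ⟪u, θ⟫ / ‖u‖ := by
    funext θ
    rw [real_inner_smul_left, div_eq_inv_mul]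
  rwa [h3] at h2

lemma integral_sq_gauss : ∫ x, x ^ 2 ∂(gaussianReal 0 1) = 1 := by
  have h := variance_id_gaussianReal (μ := 0) (v := 1)
  rw [variance_eq_integral (by fun_prop)] at h
  simpa using h

lemma integrable_sq_gauss : Integrable (fun x : ℝ => x ^ 2) (gaussianReal 0 1) := by
  have : MemLp (id : ℝ → ℝ) 2 (gaussianReal 0 1) := memLp_id_gaussianReal 2
  exact this.integrable_sq

lemma integrable_normsq : Integrable (fun θ : V d => ‖θ‖ ^ 2) (stdGaussian (V d)) := by
  have : MemLp (id : V d → V d) 2 (stdGaussian (V d)) := IsGaussian.memLp_two_id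
  exact this.integrable_norm_pow (by norm_num)

lemma integral_normsq {ι : Type*} [Fintype ι] {z : ι → V d} (hz : ∀ i, z i ≠ 0)
    (hp : ∀ x : V d, ∑ j, ⟪z j, x⟫ ^ 2 = ‖x‖ ^ 2) :
    ∫ θ : V d, ‖θ‖ ^ 2 ∂(stdGaussian (V d)) = ∑ i, ‖z i‖ ^ 2 := by
  have h1 : ∀ θ : V d, ‖θ‖ ^ 2 = ∑ j, ‖z j‖ ^ 2 * (⟪z j, θ⟫ / ‖z j‖) ^ 2 := by
    intro θ
    rw [← hp θ]
    refine Finset.sum_congr rfl fun j _ => ?_
    have : ‖z j‖ ≠ 0 := norm_ne_zero_iff.2 (hz j)
    field_simp
  have h2 : ∀ j, Integrable (fun θ : V d => (⟪z j, θ⟫ / ‖z j‖) ^ 2) (stdGaussian (V d)) := by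
    intro j
    exact (mp_innerdiv (hz j)).integrable_comp_of_integrable integrable_sq_gauss
  rw [integral_congr_ae (Filter.Eventually.of_forall h1), integral_finsetSum]
  · refine Finset.sum_congr rfl fun j _ => ?_
    rw [integral_const_mul]
    have h3 : ∫ θ : V d, (⟪z j, θ⟫ / ‖z j‖) ^ 2 ∂(stdGaussian (V d)) = 1 := by
      have h4 := (mp_innerdiv (hz j)).map_eq
      have h5 := integral_map (mp_innerdiv (hz j)).aemeasurable
        (f := fun x : ℝ => x ^ 2) (μ := stdGaussian (V d)) (by fun_prop)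
      rw [h4, integral_sq_gauss] at h5
      exact h5.symm
    rw [h3, mul_one]
  · intro j _
    exact (h2 j).const_mul _

end Fil27
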