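import Mathlib
import Pool.Agent.helper27.Fil.Defs

namespace Fil27

open MeasureTheory ProbabilityTheory
open scoped RealInnerProductSpace

variable {ι : Type*} [Fintype ι] {d : ℕ}

lemma inner_eq (x y : V d) : ⟪x, y⟫ = ∑ a, x a * y a := by
  rw [PiLp.inner_apply]
  refine Finset.sum_congr rfl fun a _ => ?_
  simp [mul_comm]

lemma parseval {z : ι → V d} (hI : frameM (fun _ => 1) z = 1) (x y : V d) :
    ∑ j, ⟪z j, x⟫ * ⟪z j, y⟫ = ⟪x, y⟫ := by
  have h1 : ∀ a b, ∑ i, z i a * z i b = if a = b then 1 else 0 := by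
    intro a b
    have := congrFun (congrFun hI a) b
    simpa [frameM, Matrix.one_apply] using this
  simp only [inner_eq]
  calc ∑ j, (∑ a, z j a * x a) * (∑ b, z j b * y b)
      = ∑ j, ∑ a, ∑ b, (z j a * z j b) * (x a * y b) := by
        refine Finset.sum_congr rfl fun j _ => ?_
        rw [Finset.sum_mul_sum]
        refine Finset.sum_congr rfl fun a _ => Finset.sum_congr rfl fun b _ => by ring
    _ = ∑ a, ∑ b, (∑ j, z j a * z j b) * (x a * y b) := by
        rw [Finset.sum_comm]
        refine Finset.sum_congr rfl fun a _ => ?_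
        rw [Finset.sum_comm]
        refine Finset.sum_congr rfl fun b _ => ?_
        rw [Finset.sum_mul]
    _ = ∑ a, x a * y a := by
        simp [h1]

lemma parseval_norm {z : ι → V d} (hI : frameM (fun _ => 1) z = 1) (x : V d) :
    ∑ j, ⟪x, z j⟫ ^ 2 = ‖x‖ ^ 2 := by
  rw [← real_inner_self_eq_norm_sq, ← parseval hI x x]
  refine Finset.sum_congr rfl fun j _ => ?_
  rw [real_inner_comm]; ring

/-- the bilinear form of `frameM` -/
lemma frameM_mulVec_dot (w : ι → ℝ) (z : ι → V d) (x y : Fin d → ℝ) :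
    x ⬝ᵥ (frameM w z).mulVec y =
      ∑ i, w i * ((∑ a, z i a * x a) * (∑ a, z i a * y a)) := by
  simp only [dotProduct, Matrix.mulVec, frameM, Matrix.of_apply]
  calc ∑ a, x a * ∑ b, (∑ i, w i * (z i a * z i b)) * y b
      = ∑ a, ∑ b, ∑ i, w i * ((z i a * x a) * (z i b * y b)) := by
        refine Finset.sum_congr rfl fun a _ => ?_
        rw [Finset.mul_sum]
        refine Finset.sum_congr rfl fun b _ => ?_
        rw [Finset.sum_mul, Finset.mul_sum]
        refine Finset.sum_congr rfl fun i _ => by ring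
    _ = ∑ i, ∑ a, ∑ b, w i * ((z i a * x a) * (z i b * y b)) := by
        rw [Finset.sum_comm_cycle]
    _ = _ := by
        refine Finset.sum_congr rfl fun i _ => ?_
        rw [Finset.sum_mul_sum, Finset.mul_sum]
        refine Finset.sum_congr rfl fun a _ => ?_
        rw [Finset.mul_sum]

lemma frameM_isHermitian (w : ι → ℝ) (z : ι → V d) : (frameM w z).IsHermitian := by
  ext a b
  simp only [Matrix.conjTranspose_apply, frameM, Matrix.of_apply, star_trivial]
  refine Finset.sum_congr rfl fun i _ => by ring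

lemma frameM_posDef {z : ι → V d} (hI : frameM (fun _ => 1) z = 1) {w : ι → ℝ}
    (hw : ∀ i, 0 < w i) : (frameM w z).PosDef := by
  refine Matrix.PosDef.of_dotProduct_mulVec_pos (frameM_isHermitian w z) fun x hx => ?_
  rw [star_trivial, frameM_mulVec_dot]
  have h1 := frameM_mulVec_dot (fun _ => 1) z x x
  rw [hI, Matrix.one_mulVec] at h1
  have hpos : 0 < x ⬝ᵥ x := by
    have := Matrix.dotProduct_star_self_pos_iff (v := x)
    simpa using this.2 hx
  have hne : ∃ i, (∑ a, z i a * x a) ≠ 0 := by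
    by_contra hcon
    push Not at hcon
    simp [hcon] at h1
    exact hx h1
  obtain ⟨i, hi⟩ := hne
  refine Finset.sum_pos' (fun j _ => mul_nonneg (hw j).le (mul_self_nonneg _)) ⟨i, Finset.mem_univ i, ?_⟩
  exact mul_pos (hw i) (mul_self_pos.2 hi)

/-- operator Jensen for the inverse, in the form needed. -/
lemma inv_le {z : ι → V d} (hI : frameM (fun _ => 1) z = 1) {m : ι → ℝ}
    (hm : ∀ i, 0 < m i) (x : Fin d → ℝ) :
    x ⬝ᵥ (frameM m z)⁻¹.mulVec x ≤ ∑ j, (m j)⁻¹ * (∑ a, z j a * x a) ^ 2 := by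
  have hpd := frameM_posDef hI hm
  set M := frameM m z with hM
  set y := M⁻¹.mulVec x with hy
  have hMy : M.mulVec y = x := by
    rw [hy, Matrix.mulVec_mulVec, Matrix.mul_nonsing_inv _ (Matrix.PosDef.det_pos hpd).ne'.isUnit, Matrix.one_mulVec]
  have h1 : x ⬝ᵥ y = ∑ i, (∑ a, z i a * x a) * (∑ a, z i a * y a) := by
    have := frameM_mulVec_dot (fun _ => 1) z x y
    rw [hI, Matrix.one_mulVec] at this
    rw [this]
    simp
  have h2 : x ⬝ᵥ y = ∑ i, m i * (∑ a, z i a * y a) ^ 2 := by
    have := frameM_mulVec_dot m z y y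
    rw [← hM, hMy, dotProduct_comm] at this
    rw [this]
    refine Finset.sum_congr rfl fun i _ => by ring
  -- termwise AM-GM: 2uv ≤ u²/m + m v²
  have h3 : 2 * (x ⬝ᵥ y) ≤ ∑ j, (m j)⁻¹ * (∑ a, z j a * x a) ^ 2 + x ⬝ᵥ y := by
    conv_rhs => rw [h2, ← Finset.sum_add_distrib]
    rw [h1, Finset.mul_sum]
    refine Finset.sum_le_sum fun i _ => ?_
    have hmi := hm i
    set u := ∑ a, z i a * x a
    set v := ∑ a, z i a * y a
    have : 0 ≤ (m i)⁻¹ * (u - m i * v) ^ 2 := mul_nonneg (inv_nonneg.2 hmi.le) (sq_nonneg _)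
    have h4 : (m i)⁻¹ * (u - m i * v) ^ 2 = (m i)⁻¹ * u ^ 2 + m i * v ^ 2 - 2 * (u * v) := by
      field_simp
      ring
    linarith
  linarith

/-- derivative of `log det` along a line. -/
lemma hasDerivAt_log_det {A C : Matrix (Fin d) (Fin d) ℝ} (hA : 0 < A.det) :
    HasDerivAt (fun s : ℝ => Real.log (A + s • C).det) ((A⁻¹ * C).trace) 0 := by
  have hu : IsUnit A.det := (ne_of_gt hA).isUnit
  have h1 : ∀ s : ℝ, (A + s • C).det = A.det * (1 + s • (A⁻¹ * C)).det := by
    intro s
    rw [← Matrix.det_mul, Matrix.mul_add, Matrix.mul_one, Matrix.mul_smul, ← Matrix.mul_assoc,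
      Matrix.mul_nonsing_inv _ hu, Matrix.one_mul]
  have h2 : HasDerivAt (fun s : ℝ => (1 + s • (A⁻¹ * C)).det) ((A⁻¹ * C).trace) 0 := by
    set B := A⁻¹ * C
    have h3 : (fun s : ℝ => (1 + s • B).det) = fun s : ℝ => 1 + B.trace * s +
        (Matrix.det (1 + (Polynomial.X : Polynomial ℝ) • B.map Polynomial.C)).divX.divX.eval s * s ^ 2 := by
      funext s
      exact Matrix.det_one_add_smul s B
    rw [h3]
    set P := (Matrix.det (1 + (Polynomial.X : Polynomial ℝ) • B.map Polynomial.C)).divX.divX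
    have h4 : HasDerivAt (fun s : ℝ => 1 + B.trace * s + P.eval s * s ^ 2)
        (0 + B.trace * 1 + ((Polynomial.derivative P).eval 0 * 0 ^ 2 + P.eval 0 * (2 * 0))) 0 := by
      refine HasDerivAt.add (HasDerivAt.add (hasDerivAt_const _ _) ((hasDerivAt_id _).const_mul _)) ?_
      refine HasDerivAt.mul (P.hasDerivAt 0) ?_
      simpa using hasDerivAt_pow 2 (0 : ℝ)
    simpa using h4
  have h5 : HasDerivAt (fun s : ℝ => A.det * (1 + s • (A⁻¹ * C)).det) (A.det * (A⁻¹ * C).trace) 0 :=
    h2.const_mul _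
  have h6 := HasDerivAt.log h5 (by simpa using ne_of_gt hA)
  simp only [h1]
  convert! h6 using 1
  simp
  field_simp

/-- `2 log max - 1 + min / max` -/
noncomputable def capG (x y : ℝ) : ℝ := 2 * Real.log (max x y) - 1 + min x y / max x y

lemma capG_comm (x y : ℝ) : capG x y = capG y x := by
  simp [capG, max_comm, min_comm]

lemma capG_eq {x y : ℝ} (hx : 0 < x) (hy : 0 < y) :
    Real.log x + Real.log y + kap (Real.log x - Real.log y) = capG x y := by
  wlog hxy : x ≤ y generalizing x y with H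
  · have := H hy hx (le_of_not_ge hxy)
    rw [capG_comm, ← this, kap, kap, abs_sub_comm]
    ring
  have hl : Real.log x ≤ Real.log y := Real.log_le_log hx hxy
  rw [capG, kap, abs_of_nonpos (by linarith), max_eq_right hxy, min_eq_left hxy]
  have : Real.exp (-(-(Real.log x - Real.log y))) = x / y := by
    rw [neg_neg, Real.exp_sub, Real.exp_log hx, Real.exp_log hy]
  rw [this]
  ring

lemma capG_deriv_aux {u v t : ℝ} (ht : 0 < t) (hu : u ≤ t) :
    HasDerivWithinAt (fun s => capG (max u s) (max v s))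
      ((max v t)⁻¹ + (if v ≤ t then (max u t)⁻¹ else 0)) (Set.Ici t) t := by
  by_cases hv : v ≤ t
  · rw [if_pos hv, max_eq_right hu, max_eq_right hv]
    have h1 : HasDerivWithinAt (fun s => 2 * Real.log s) (2 * t⁻¹) (Set.Ici t) t :=
      ((Real.hasDerivAt_log ht.ne').const_mul 2).hasDerivWithinAt
    have h2 : ∀ s ∈ Set.Ici t, capG (max u s) (max v s) = 2 * Real.log s := by
      intro s hs
      have hs' : t ≤ s := hs
      rw [max_eq_right (hu.trans hs'), max_eq_right (hv.trans hs'), capG, max_self, min_self,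
        div_self (ht.trans_le hs').ne']
      ring
    have h3 := h1.congr h2 (h2 t Set.self_mem_Ici)
    rw [two_mul] at h3
    exact h3
  · push Not at hv
    rw [if_neg (not_le.2 hv), max_eq_left hv.le]
    have hv0 : 0 < v := ht.trans hv
    have h1 : HasDerivWithinAt (fun s => 2 * Real.log v - 1 + s / v) (v⁻¹ + 0) (Set.Ici t) t := by
      have := ((hasDerivAt_id t).div_const v).const_add (2 * Real.log v - 1)
      simpa using this.hasDerivWithinAt
    refine h1.congr_of_eventuallyEq ?_ ?_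
    · have : ∀ᶠ s in nhdsWithin t (Set.Ici t), s < v :=
        nhdsWithin_le_nhds (Iio_mem_nhds hv)
      filter_upwards [this, self_mem_nhdsWithin] with s hs1 hs2
      have hs2' : t ≤ s := hs2
      rw [max_eq_right (hu.trans hs2'), max_eq_left hs1.le, capG, max_eq_right hs1.le,
        min_eq_left hs1.le]
    · rw [max_eq_right hu, max_eq_left hv.le, capG, max_eq_right hv.le, min_eq_left hv.le]

lemma capG_deriv {u v t : ℝ} (ht : 0 < t) :
    HasDerivWithinAt (fun s => capG (max u s) (max v s))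
      ((if u ≤ t then (max v t)⁻¹ else 0) + (if v ≤ t then (max u t)⁻¹ else 0)) (Set.Ici t) t := by
  by_cases hu : u ≤ t
  · rw [if_pos hu]
    exact capG_deriv_aux ht hu
  · by_cases hv : v ≤ t
    · have := capG_deriv_aux (u := v) (v := u) ht hv
      rw [if_neg hu, add_zero] at this
      rw [if_neg hu, if_pos hv, zero_add]
      simpa only [capG_comm] using this
    · rw [if_neg hu, if_neg hv, add_zero]
      push Not at hu hv
      refine (hasDerivWithinAt_const t (Set.Ici t) (capG u v)).congr_of_eventuallyEq ?_ ?_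
      · have h1 : ∀ᶠ s in nhdsWithin t (Set.Ici t), s < v := nhdsWithin_le_nhds (Iio_mem_nhds hv)
        have h2 : ∀ᶠ s in nhdsWithin t (Set.Ici t), s < u := nhdsWithin_le_nhds (Iio_mem_nhds hu)
        filter_upwards [h1, h2] with s hs1 hs2
        rw [max_eq_left hs1.le, max_eq_left hs2.le]
      · rw [max_eq_left hu.le, max_eq_left hv.le]

lemma trace_mul_frameM (A : Matrix (Fin d) (Fin d) ℝ) (c : ι → ℝ) (z : ι → V d) :
    (A * frameM c z).trace = ∑ i, c i * ((fun a => z i a) ⬝ᵥ A.mulVec (fun a => z i a)) := by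
  simp only [Matrix.trace, Matrix.diag, Matrix.mul_apply, frameM, Matrix.of_apply, dotProduct,
    Matrix.mulVec]
  calc ∑ a, ∑ b, A a b * ∑ i, c i * (z i b * z i a)
      = ∑ a, ∑ b, ∑ i, c i * (z i a * (A a b * z i b)) := by
        refine Finset.sum_congr rfl fun a _ => Finset.sum_congr rfl fun b _ => ?_
        rw [Finset.mul_sum]
        refine Finset.sum_congr rfl fun i _ => by ring
    _ = ∑ i, ∑ a, ∑ b, c i * (z i a * (A a b * z i b)) := by
        rw [Finset.sum_comm_cycle]
    _ = _ := by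
        refine Finset.sum_congr rfl fun i _ => ?_
        rw [Finset.mul_sum]
        refine Finset.sum_congr rfl fun a _ => ?_
        rw [Finset.mul_sum, Finset.mul_sum]

lemma frameM_add (c c' : ι → ℝ) (z : ι → V d) :
    frameM (fun i => c i + c' i) z = frameM c z + frameM c' z := by
  ext a b
  simp [frameM, add_mul, Finset.sum_add_distrib]

lemma frameM_smul (s : ℝ) (c : ι → ℝ) (z : ι → V d) :
    frameM (fun i => s * c i) z = s • frameM c z := by
  ext a b
  simp [frameM, Finset.mul_sum, mul_assoc]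

lemma logdet_deriv {z : ι → V d} (hI : frameM (fun _ => 1) z = 1) {w : ι → ℝ} {t : ℝ}
    (ht : 0 < t) :
    HasDerivWithinAt (fun s => Real.log (frameM (fun i => max (w i) s) z).det)
      (∑ i, (if w i ≤ t then 1 else 0) *
        ((fun a => z i a) ⬝ᵥ (frameM (fun i => max (w i) t) z)⁻¹.mulVec (fun a => z i a)))
      (Set.Ici t) t := by
  set A := frameM (fun i => max (w i) t) z with hA
  set C := frameM (fun i => if w i ≤ t then (1 : ℝ) else 0) z with hC
  have hApd : A.PosDef := frameM_posDef hI fun i => lt_max_of_lt_right ht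
  have h1 := hasDerivAt_log_det (C := C) (Matrix.PosDef.det_pos hApd)
  rw [trace_mul_frameM] at h1
  have h2 : HasDerivAt (fun s : ℝ => Real.log (A + (s - t) • C).det)
      (∑ i, (if w i ≤ t then 1 else 0) *
        ((fun a => z i a) ⬝ᵥ A⁻¹.mulVec (fun a => z i a))) t := by
    have h3 : HasDerivAt (fun s : ℝ => s - t) 1 t := (hasDerivAt_id t).sub_const t
    have h4 : HasDerivAt (fun s : ℝ => Real.log (A + s • C).det)
      (∑ i, (if w i ≤ t then 1 else 0) *
        ((fun a => z i a) ⬝ᵥ A⁻¹.mulVec (fun a => z i a))) (t - t) := by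
      rw [sub_self]; exact h1
    have := HasDerivAt.comp (h := fun s : ℝ => s - t) t h4 h3
    simpa [Function.comp_def] using this
  refine h2.hasDerivWithinAt.congr_of_eventuallyEq ?_ ?_
  · have h5 : ∀ᶠ s in nhdsWithin t (Set.Ici t), ∀ i, t < w i → s < w i := by
      rw [Filter.eventually_all]
      intro i
      by_cases hi : t < w i
      · have : ∀ᶠ s in nhdsWithin t (Set.Ici t), s < w i := nhdsWithin_le_nhds (Iio_mem_nhds hi)
        filter_upwards [this] with s hs _ using hs
      · exact Filter.Eventually.of_forall fun s hcon => absurd hcon hi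
    filter_upwards [h5, self_mem_nhdsWithin] with s hs1 hs2
    have hs2' : t ≤ s := hs2
    congr 2
    rw [hA, hC, ← frameM_smul, ← frameM_add]
    congr 1
    funext i
    by_cases hi : w i ≤ t
    · rw [max_eq_right (hi.trans hs2'), max_eq_right hi, if_pos hi]; ring
    · have hi' := not_le.1 hi
      rw [max_eq_left (hs1 i hi').le, max_eq_left hi'.le, if_neg hi]; ring
  · simp [hA]

lemma continuous_capG_max {u v : ℝ} :
    ContinuousOn (fun s => capG (max u s) (max v s)) (Set.Ioi 0) := by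
  unfold capG
  have h1 : ContinuousOn (fun s : ℝ => max (max u s) (max v s)) (Set.Ioi 0) := by fun_prop
  have h2 : ContinuousOn (fun s : ℝ => min (max u s) (max v s)) (Set.Ioi 0) := by fun_prop
  have h3 : ∀ s ∈ Set.Ioi (0 : ℝ), max (max u s) (max v s) ≠ 0 := by
    intro s hs
    have : (0 : ℝ) < max (max u s) (max v s) := lt_max_of_lt_left (lt_max_of_lt_right hs)
    exact this.ne'
  exact ((continuousOn_const.mul (h1.log h3)).sub continuousOn_const).add (h2.div h1 h3)

lemma continuousOn_logdet {z : ι → V d} (hI : frameM (fun _ => 1) z = 1) {w : ι → ℝ} :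
    ContinuousOn (fun s => Real.log (frameM (fun i => max (w i) s) z).det) (Set.Ioi 0) := by
  refine ContinuousOn.log ?_ ?_
  · have : Continuous fun s => (frameM (fun i => max (w i) s) z).det := by
      refine Continuous.matrix_det ?_
      refine continuous_matrix fun a b => ?_
      simp only [frameM, Matrix.of_apply]
      fun_prop
    exact this.continuousOn
  · intro s hs
    exact (Matrix.PosDef.det_pos (frameM_posDef hI fun i => lt_max_of_lt_right hs)).ne'

/-- The inequality K1, in the `capG` form. -/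
theorem K1_capG {z : ι → V d} (hI : frameM (fun _ => 1) z = 1) {w : ι → ℝ}
    (hw : ∀ i, 0 < w i) :
    1 / 2 * ∑ i, ∑ j, ⟪z i, z j⟫ ^ 2 * capG (w i) (w j) ≤ Real.log (frameM w z).det := by
  rcases isEmpty_or_nonempty ι with hι | hι
  · have : frameM w z = 1 := by
      rw [← hI]; congr 1; funext i; exact (IsEmpty.false i).elim
    rw [this]; simp
  obtain ⟨i₀, -, hi₀⟩ := Finset.exists_min_image Finset.univ w Finset.univ_nonempty
  obtain ⟨i₁, -, hi₁⟩ := Finset.exists_max_image Finset.univ w Finset.univ_nonempty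
  set a := w i₀ with ha
  set b := w i₁ with hb
  have ha0 : 0 < a := hw i₀
  have hab : a ≤ b := hi₀ i₁ (Finset.mem_univ _)
  set F : ℝ → ℝ := fun s => Real.log (frameM (fun i => max (w i) s) z).det with hF
  set B : ℝ → ℝ := fun s => 1 / 2 * ∑ i, ∑ j, ⟪z i, z j⟫ ^ 2 * capG (max (w i) s) (max (w j) s)
    with hB
  have hpn : ∀ x : V d, ∑ j, ⟪x, z j⟫ ^ 2 = ‖x‖ ^ 2 := parseval_norm hI
  have hsub : Set.Icc a b ⊆ Set.Ioi 0 := fun x hx => ha0.trans_le hx.1
  have hFc : ContinuousOn F (Set.Icc a b) := (continuousOn_logdet hI).mono hsub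
  have hBc : ContinuousOn B (Set.Icc a b) := by
    have : ContinuousOn B (Set.Ioi 0) := by
      refine continuousOn_const.mul ?_
      refine continuousOn_finsetSum _ fun i _ => ?_
      refine continuousOn_finsetSum _ fun j _ => ?_
      exact continuousOn_const.mul continuous_capG_max
    exact this.mono hsub
  -- right derivatives
  set F' : ℝ → ℝ := fun t => ∑ i, (if w i ≤ t then 1 else 0) *
        ((fun a => z i a) ⬝ᵥ (frameM (fun i => max (w i) t) z)⁻¹.mulVec (fun a => z i a)) with hF'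
  set B' : ℝ → ℝ := fun t => 1 / 2 * ∑ i, ∑ j, ⟪z i, z j⟫ ^ 2 *
      ((if w i ≤ t then (max (w j) t)⁻¹ else 0) + (if w j ≤ t then (max (w i) t)⁻¹ else 0)) with hB'
  have hFd : ∀ x ∈ Set.Ico a b, HasDerivWithinAt F (F' x) (Set.Ici x) x := fun x hx =>
    logdet_deriv hI (ha0.trans_le hx.1)
  have hBd : ∀ x ∈ Set.Ico a b, HasDerivWithinAt B (B' x) (Set.Ici x) x := by
    intro x hx
    refine HasDerivWithinAt.const_mul _ ?_
    refine HasDerivWithinAt.fun_sum fun i _ => ?_
    refine HasDerivWithinAt.fun_sum fun j _ => ?_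
    exact (capG_deriv (ha0.trans_le hx.1)).const_mul _
  have hBsym : ∀ t, B' t = ∑ i, (if w i ≤ t then 1 else 0) *
      ∑ j, (max (w j) t)⁻¹ * ⟪z i, z j⟫ ^ 2 := by
    intro t
    have e1 : ∑ i, ∑ j, ⟪z i, z j⟫ ^ 2 * (if w j ≤ t then (max (w i) t)⁻¹ else 0) =
        ∑ i, ∑ j, ⟪z i, z j⟫ ^ 2 * (if w i ≤ t then (max (w j) t)⁻¹ else 0) := by
      rw [Finset.sum_comm]
      refine Finset.sum_congr rfl fun i _ => Finset.sum_congr rfl fun j _ => ?_
      rw [real_inner_comm]
    simp only [hB', mul_add, Finset.sum_add_distrib]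
    rw [e1, ← two_mul, ← mul_assoc]
    norm_num
    refine Finset.sum_congr rfl fun i _ => ?_
    by_cases hi : w i ≤ t
    · simp [hi, mul_comm]
    · simp [hi]
  have hbound : ∀ x ∈ Set.Ico a b, F' x ≤ B' x := by
    intro t ht
    have ht0 : 0 < t := ha0.trans_le ht.1
    rw [hBsym]
    refine Finset.sum_le_sum fun i _ => ?_
    refine mul_le_mul_of_nonneg_left ?_ (by split_ifs <;> norm_num)
    refine (inv_le hI (fun i => lt_max_of_lt_right ht0) _).trans (le_of_eq ?_)
    refine Finset.sum_congr rfl fun j _ => ?_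
    rw [inner_eq]
    congr 2
    refine Finset.sum_congr rfl fun a _ => by ring
  -- compare
  have hdiff := image_le_of_deriv_right_le_deriv_boundary (f := fun s => F s + (B a - F a))
    (B := B) (a := a) (b := b) (f' := F') (B' := B') (hFc.add continuousOn_const)
    (fun x hx => by simpa using (hFd x hx).add_const (B a - F a)) (by simp) hBc hBd hbound
    (Set.right_mem_Icc.2 hab)
  have hmaxa : ∀ i, max (w i) a = w i := fun i => max_eq_left (hi₀ i (Finset.mem_univ _))
  have hmaxb : ∀ i, max (w i) b = b := fun i => max_eq_right (hi₁ i (Finset.mem_univ _))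
  have hFa : F a = Real.log (frameM w z).det := by simp [hF, hmaxa]
  have hBa : B a = 1 / 2 * ∑ i, ∑ j, ⟪z i, z j⟫ ^ 2 * capG (w i) (w j) := by simp [hB, hmaxa]
  have hb0 : 0 < b := ha0.trans_le hab
  have hFb : F b = d * Real.log b := by
    have h1 : frameM (fun _ : ι => b) z = b • (1 : Matrix (Fin d) (Fin d) ℝ) := by
      rw [← hI, ← frameM_smul]; simp
    simp only [hF, hmaxb]
    rw [h1, Matrix.det_smul, Matrix.det_one, mul_one, Real.log_pow, Fintype.card_fin]
  have hBb : B b = d * Real.log b := by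
    simp only [hB, hmaxb]
    have h1 : capG b b = 2 * Real.log b := by
      rw [capG, max_self, min_self, div_self hb0.ne']; ring
    rw [h1]
    have h2 : ∑ i, ∑ j, ⟪z i, z j⟫ ^ 2 * (2 * Real.log b) = (∑ i, ‖z i‖ ^ 2) * (2 * Real.log b) := by
      rw [Finset.sum_mul]
      refine Finset.sum_congr rfl fun i _ => ?_
      rw [← hpn, Finset.sum_mul]
    have h3 : ∑ i, ‖z i‖ ^ 2 = d := by
      have h4 : (frameM (fun _ => 1) z).trace = d := by rw [hI]; simp
      rw [← h4]
      simp only [Matrix.trace, Matrix.diag, frameM, Matrix.of_apply, one_mul]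
      rw [Finset.sum_comm]
      refine Finset.sum_congr rfl fun i _ => ?_
      rw [← real_inner_self_eq_norm_sq, inner_eq]
    rw [h2, h3]
    ring
  rw [← hFa, ← hBa]
  have : F b + (B a - F a) ≤ B b := hdiff
  rw [hFb, hBb] at this
  linarith

/-- The inequality K1. -/
theorem K1 {z : ι → V d} (hI : frameM (fun _ => 1) z = 1) {w : ι → ℝ} (hw : ∀ i, 0 < w i) :
    ∑ i, ‖z i‖ ^ 2 * Real.log (w i) +
      1 / 2 * ∑ i, ∑ j, ⟪z i, z j⟫ ^ 2 * kap (Real.log (w i) - Real.log (w j)) ≤
      Real.log (frameM w z).det := by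
  refine le_trans (le_of_eq ?_) (K1_capG hI hw)
  have h1 : ∑ i, ‖z i‖ ^ 2 * Real.log (w i) =
      1 / 2 * ∑ i, ∑ j, ⟪z i, z j⟫ ^ 2 * (Real.log (w i) + Real.log (w j)) := by
    have h2 : ∑ i, ∑ j, ⟪z i, z j⟫ ^ 2 * Real.log (w i) = ∑ i, ‖z i‖ ^ 2 * Real.log (w i) := by
      refine Finset.sum_congr rfl fun i _ => ?_
      rw [← Finset.sum_mul, parseval_norm hI]
    have h3 : ∑ i, ∑ j, ⟪z i, z j⟫ ^ 2 * Real.log (w j) = ∑ i, ‖z i‖ ^ 2 * Real.log (w i) := by
      rw [Finset.sum_comm, ← h2]
      refine Finset.sum_congr rfl fun i _ => Finset.sum_congr rfl fun j _ => ?_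
      rw [real_inner_comm]
    simp only [mul_add, Finset.sum_add_distrib]
    rw [h2, h3]; ring
  rw [h1, ← mul_add, ← Finset.sum_add_distrib]
  congr 1
  refine Finset.sum_congr rfl fun i _ => ?_
  rw [← Finset.sum_add_distrib]
  refine Finset.sum_congr rfl fun j _ => ?_
  rw [← mul_add, capG_eq (hw i) (hw j)]

end Fil27
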