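import Mathlib
import Pool.Agent.helper27.Fil.Defs
import Pool.Agent.helper27.Fil.Gauss

namespace Fil27

open MeasureTheory ProbabilityTheory
open scoped RealInnerProductSpace ComplexConjugate

/-- a probability measure on the plane with the characteristic function of a pair of standard
Gaussians with correlation `ρ`. -/
def IsBiv (m : Measure (ℝ × ℝ)) (ρ : ℝ) : Prop :=
  ∀ t s : ℝ, ∫ p : ℝ × ℝ, Complex.exp ((t * p.1 - s * p.2 : ℝ) * Complex.I) ∂m =
    Real.exp (-(t ^ 2 + s ^ 2) / 2 + ρ * t * s)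

/-- a trigonometric polynomial -/
noncomputable def trig {κ : Type*} (A : Finset κ) (c : κ → ℂ) (t : κ → ℝ) (x : ℝ) : ℂ :=
  ∑ k ∈ A, c k * Complex.exp ((t k * x : ℝ) * Complex.I)

/-- the moments of a trigonometric polynomial -/
noncomputable def trigA {κ : Type*} (A : Finset κ) (c : κ → ℂ) (t : κ → ℝ) (n : ℕ) : ℂ :=
  ∑ k ∈ A, c k * (Real.exp (-(t k) ^ 2 / 2) : ℝ) * (t k : ℂ) ^ n

/-- the mixed moment as a double sum -/
noncomputable def mixH {κ κ' : Type*} (A : Finset κ) (c : κ → ℂ) (t : κ → ℝ) (B : Finset κ')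
    (q : κ' → ℂ) (s : κ' → ℝ) (ρ : ℝ) : ℂ :=
  ∑ k ∈ A, ∑ l ∈ B, c k * conj (q l) *
    (Real.exp (-((t k) ^ 2 + (s l) ^ 2) / 2 + ρ * t k * s l) : ℝ)

section
variable {κ κ' : Type*} (A : Finset κ) (c : κ → ℂ) (t : κ → ℝ) (B : Finset κ')
    (q : κ' → ℂ) (s : κ' → ℝ) (ρ : ℝ)

lemma mixH_hasSum : HasSum (fun n : ℕ => ((ρ ^ n / n.factorial : ℝ) : ℂ) *
    (trigA A c t n * conj (trigA B q s n))) (mixH A c t B q s ρ) := by
  have h1 : ∀ k l, HasSum (fun n : ℕ => c k * conj (q l) *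
      ((Real.exp (-((t k) ^ 2 + (s l) ^ 2) / 2) * ((ρ * t k * s l) ^ n / n.factorial) : ℝ) : ℂ))
      (c k * conj (q l) * (Real.exp (-((t k) ^ 2 + (s l) ^ 2) / 2 + ρ * t k * s l) : ℝ)) := by
    intro k l
    refine HasSum.mul_left _ ?_
    refine (Complex.hasSum_ofReal).2 ?_
    rw [Real.exp_add]
    refine HasSum.mul_left _ ?_
    have := NormedSpace.expSeries_div_hasSum_exp (ρ * t k * s l)
    rwa [← Real.exp_eq_exp_ℝ] at this
  have h2 : HasSum (fun n : ℕ => ∑ k ∈ A, ∑ l ∈ B, c k * conj (q l) *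
      ((Real.exp (-((t k) ^ 2 + (s l) ^ 2) / 2) * ((ρ * t k * s l) ^ n / n.factorial) : ℝ) : ℂ))
      (mixH A c t B q s ρ) := by
    unfold mixH
    refine hasSum_sum fun k _ => hasSum_sum fun l _ => h1 k l
  convert! h2 using 2 with n
  rw [trigA, trigA, map_sum, Finset.sum_mul_sum, Finset.mul_sum]
  refine Finset.sum_congr rfl fun k _ => ?_
  rw [Finset.mul_sum]
  refine Finset.sum_congr rfl fun l _ => ?_
  have h3 : Real.exp (-((t k) ^ 2 + (s l) ^ 2) / 2) =
      Real.exp (-(t k) ^ 2 / 2) * Real.exp (-(s l) ^ 2 / 2) := by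
    rw [← Real.exp_add]; congr 1; ring
  rw [h3]
  simp only [map_mul, Complex.conj_ofReal, map_pow]
  push_cast
  ring

lemma mixH_hasSum_re : HasSum (fun n : ℕ => ρ ^ n / n.factorial *
        (trigA A c t n * conj (trigA B q s n)).re) (mixH A c t B q s ρ).re := by
  have := Complex.hasSum_re (mixH_hasSum A c t B q s ρ)
  simpa only [Complex.re_ofReal_mul] using this

/-- key algebraic inequality between the second moments of the differences -/
lemma mixH_ineq (hρ : |ρ| ≤ 1) :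
    (1 - |ρ|) * ((mixH A c t A c t 1).re + (mixH B q s B q s 1).re - 2 * (mixH A c t B q s 0).re) ≤
      (mixH A c t A c t 1).re + (mixH B q s B q s 1).re - 2 * (mixH A c t B q s ρ).re := by
  have e1 := mixH_hasSum_re A c t A c t 1
  have e2 := mixH_hasSum_re B q s B q s 1
  have e3 := mixH_hasSum_re A c t B q s 0
  have e4 := mixH_hasSum_re A c t B q s ρ
  have hL := ((e1.add e2).sub (e3.mul_left 2)).mul_left (1 - |ρ|)
  have hR := (e1.add e2).sub (e4.mul_left 2)
  refine hasSum_le (fun n => ?_) hL hR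
  set a := trigA A c t n
  set b := trigA B q s n
  have ha : (a * conj a).re = ‖a‖ ^ 2 := by
    rw [Complex.mul_conj, Complex.ofReal_re, Complex.normSq_eq_norm_sq]
  have hb : (b * conj b).re = ‖b‖ ^ 2 := by
    rw [Complex.mul_conj, Complex.ofReal_re, Complex.normSq_eq_norm_sq]
  have hab : |(a * conj b).re| ≤ ‖a‖ * ‖b‖ := by
    refine (Complex.abs_re_le_norm _).trans ?_
    rw [norm_mul, Complex.norm_conj]
  rw [ha, hb]
  have hf : (0 : ℝ) < n.factorial := by exact_mod_cast n.factorial_pos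
  set x := (a * conj b).re
  have habs : 2 * |x| ≤ ‖a‖ ^ 2 + ‖b‖ ^ 2 := by nlinarith [sq_nonneg (‖a‖ - ‖b‖)]
  rcases Nat.eq_zero_or_pos n with hn | hn
  · simp only [hn, pow_zero, Nat.factorial_zero, Nat.cast_one, div_one, one_mul]
    have hx := (abs_le.1 (le_refl |x|)).2
    have h0 : 0 ≤ |ρ| := abs_nonneg ρ
    nlinarith
  · have h0 : (0 : ℝ) ^ n = 0 := zero_pow hn.ne'
    rw [h0, one_pow]
    have hpow : |ρ ^ n| ≤ |ρ| := by
      rw [abs_pow]
      exact pow_le_of_le_one (abs_nonneg _) hρ hn.ne'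
    have hx : ρ ^ n * x ≤ |ρ| * |x| := by
      calc ρ ^ n * x ≤ |ρ ^ n * x| := le_abs_self _
        _ = |ρ ^ n| * |x| := abs_mul _ _
        _ ≤ |ρ| * |x| := mul_le_mul_of_nonneg_right hpow (abs_nonneg _)
    have h5 : (1 - |ρ|) * (‖a‖ ^ 2 + ‖b‖ ^ 2) ≤ ‖a‖ ^ 2 + ‖b‖ ^ 2 - 2 * (ρ ^ n * x) := by
      have h0 : 0 ≤ |ρ| := abs_nonneg ρ
      nlinarith
    have h6 := mul_le_mul_of_nonneg_left h5 (one_div_pos.2 hf).le
    calc (1 - |ρ|) * (1 / (n.factorial : ℝ) * ‖a‖ ^ 2 + 1 / (n.factorial : ℝ) * ‖b‖ ^ 2 -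
          2 * (0 / (n.factorial : ℝ) * x))
        = 1 / (n.factorial : ℝ) * ((1 - |ρ|) * (‖a‖ ^ 2 + ‖b‖ ^ 2)) := by ring
      _ ≤ _ := h6
      _ = _ := by ring

end

section
variable {κ κ' : Type*} (A : Finset κ) (c : κ → ℂ) (t : κ → ℝ) (B : Finset κ')
    (q : κ' → ℂ) (s : κ' → ℝ) {ρ : ℝ} {m : Measure (ℝ × ℝ)} [IsProbabilityMeasure m]

lemma integrable_cexp {f : ℝ × ℝ → ℝ} (hf : Continuous f) :
    Integrable (fun p => Complex.exp ((f p : ℝ) * Complex.I)) m := by
  refine Integrable.mono' (integrable_const (1 : ℝ)) ?_ ?_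
  · exact (by fun_prop : Continuous fun p => Complex.exp ((f p : ℝ) * Complex.I)).aestronglyMeasurable
  · exact Filter.Eventually.of_forall fun p => by rw [Complex.norm_exp_ofReal_mul_I]

/-- general double sum integral -/
lemma integral_double {f : κ → ℝ × ℝ → ℝ} {g : κ' → ℝ × ℝ → ℝ} (hf : ∀ k, Continuous (f k))
    (hg : ∀ l, Continuous (g l)) :
    Integrable (fun p => (∑ k ∈ A, c k * Complex.exp ((f k p : ℝ) * Complex.I)) *
      conj (∑ l ∈ B, q l * Complex.exp ((g l p : ℝ) * Complex.I))) m ∧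
    ∫ p, (∑ k ∈ A, c k * Complex.exp ((f k p : ℝ) * Complex.I)) *
      conj (∑ l ∈ B, q l * Complex.exp ((g l p : ℝ) * Complex.I)) ∂m =
    ∑ k ∈ A, ∑ l ∈ B, c k * conj (q l) * ∫ p, Complex.exp ((f k p - g l p : ℝ) * Complex.I) ∂m := by
  have h1 : ∀ p, (∑ k ∈ A, c k * Complex.exp ((f k p : ℝ) * Complex.I)) *
      conj (∑ l ∈ B, q l * Complex.exp ((g l p : ℝ) * Complex.I)) =
      ∑ k ∈ A, ∑ l ∈ B, c k * conj (q l) * Complex.exp ((f k p - g l p : ℝ) * Complex.I) := by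
    intro p
    rw [map_sum, Finset.sum_mul_sum]
    refine Finset.sum_congr rfl fun k _ => Finset.sum_congr rfl fun l _ => ?_
    rw [map_mul, ← Complex.exp_conj, map_mul, Complex.conj_ofReal, Complex.conj_I]
    have : Complex.exp ((f k p - g l p : ℝ) * Complex.I) =
        Complex.exp ((f k p : ℝ) * Complex.I) * Complex.exp ((g l p : ℝ) * -Complex.I) := by
      rw [← Complex.exp_add]; congr 1; push_cast; ring
    rw [this]; ring
  have h2 : ∀ k l, Integrable (fun p => c k * conj (q l) *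
      Complex.exp ((f k p - g l p : ℝ) * Complex.I)) m := fun k l =>
    (integrable_cexp ((hf k).sub (hg l))).const_mul _
  simp only [h1]
  constructor
  · exact integrable_finsetSum _ fun k _ => integrable_finsetSum _ fun l _ => h2 k l
  · rw [integral_finsetSum _ fun k _ => integrable_finsetSum _ fun l _ => h2 k l]
    refine Finset.sum_congr rfl fun k _ => ?_
    rw [integral_finsetSum _ fun l _ => h2 k l]
    refine Finset.sum_congr rfl fun l _ => ?_
    rw [integral_const_mul]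

lemma integral_trig_sq (hm : IsBiv m ρ) :
    ∫ p : ℝ × ℝ, ‖trig A c t p.1 - trig B q s p.2‖ ^ 2 ∂m =
      (mixH A c t A c t 1).re + (mixH B q s B q s 1).re - 2 * (mixH A c t B q s ρ).re := by
  obtain ⟨i1, e1⟩ := integral_double (m := m) A c A c (f := fun k p => t k * p.1)
    (g := fun k p => t k * p.1) (fun k => by fun_prop) (fun k => by fun_prop)
  obtain ⟨i2, e2⟩ := integral_double (m := m) B q B q (f := fun k p => s k * p.2)
    (g := fun k p => s k * p.2) (fun k => by fun_prop) (fun k => by fun_prop)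
  obtain ⟨i3, e3⟩ := integral_double (m := m) A c B q (f := fun k p => t k * p.1)
    (g := fun k p => s k * p.2) (fun k => by fun_prop) (fun k => by fun_prop)
  have h1 : ∀ p : ℝ × ℝ, ‖trig A c t p.1 - trig B q s p.2‖ ^ 2 =
      ((∑ k ∈ A, c k * Complex.exp ((t k * p.1 : ℝ) * Complex.I)) *
        conj (∑ k ∈ A, c k * Complex.exp ((t k * p.1 : ℝ) * Complex.I))).re +
      ((∑ k ∈ B, q k * Complex.exp ((s k * p.2 : ℝ) * Complex.I)) *
        conj (∑ k ∈ B, q k * Complex.exp ((s k * p.2 : ℝ) * Complex.I))).re -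
      2 * ((∑ k ∈ A, c k * Complex.exp ((t k * p.1 : ℝ) * Complex.I)) *
        conj (∑ k ∈ B, q k * Complex.exp ((s k * p.2 : ℝ) * Complex.I))).re := by
    intro p
    change ‖trig A c t p.1 - trig B q s p.2‖ ^ 2 =
      (trig A c t p.1 * conj (trig A c t p.1)).re + (trig B q s p.2 * conj (trig B q s p.2)).re -
      2 * (trig A c t p.1 * conj (trig B q s p.2)).re
    rw [← Complex.normSq_eq_norm_sq, Complex.normSq_sub, Complex.mul_conj, Complex.mul_conj,
      Complex.ofReal_re, Complex.ofReal_re]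
  have hr1 := i1.re
  have hr2 := i2.re
  have hr3 := i3.re
  simp only [h1]
  have t1 : mixH A c t A c t 1 = ∫ p : ℝ × ℝ, (∑ k ∈ A, c k * Complex.exp ((t k * p.1 : ℝ) * Complex.I)) *
        conj (∑ k ∈ A, c k * Complex.exp ((t k * p.1 : ℝ) * Complex.I)) ∂m := by
    rw [e1, mixH]
    refine Finset.sum_congr rfl fun k _ => Finset.sum_congr rfl fun l _ => ?_
    congr 1
    have := hm (t k - t l) 0
    simp only [zero_mul, sub_zero, mul_zero, add_zero] at this
    rw [show (fun p : ℝ × ℝ => Complex.exp ((t k * p.1 - t l * p.1 : ℝ) * Complex.I)) =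
      fun p : ℝ × ℝ => Complex.exp (((t k - t l) * p.1 : ℝ) * Complex.I) by
        funext p; congr 2; push_cast; ring, this]
    congr 2
    ring
  have t2 : mixH B q s B q s 1 = ∫ p : ℝ × ℝ, (∑ k ∈ B, q k * Complex.exp ((s k * p.2 : ℝ) * Complex.I)) *
        conj (∑ k ∈ B, q k * Complex.exp ((s k * p.2 : ℝ) * Complex.I)) ∂m := by
    rw [e2, mixH]
    refine Finset.sum_congr rfl fun k _ => Finset.sum_congr rfl fun l _ => ?_
    congr 1
    have := hm 0 (-(s k - s l))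
    simp only [zero_mul, zero_sub, mul_zero, add_zero] at this
    rw [show (fun p : ℝ × ℝ => Complex.exp ((s k * p.2 - s l * p.2 : ℝ) * Complex.I)) =
      fun p : ℝ × ℝ => Complex.exp ((-(-(s k - s l) * p.2) : ℝ) * Complex.I) by
        funext p; congr 2; push_cast; ring, this]
    congr 2
    ring
  have t3 : mixH A c t B q s ρ = ∫ p : ℝ × ℝ, (∑ k ∈ A, c k * Complex.exp ((t k * p.1 : ℝ) * Complex.I)) *
        conj (∑ k ∈ B, q k * Complex.exp ((s k * p.2 : ℝ) * Complex.I)) ∂m := by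
    rw [e3, mixH]
    refine Finset.sum_congr rfl fun k _ => Finset.sum_congr rfl fun l _ => ?_
    rw [hm (t k) (s l)]
  rw [t1, t2, t3]
  have r1 := integral_re i1
  have r2 := integral_re i2
  have r3 := integral_re i3
  simp only [RCLike.re_to_complex] at r1 r2 r3 hr1 hr2 hr3
  rw [← r1, ← r2, ← r3]
  rw [integral_sub (by exact hr1.add hr2) (hr3.const_mul 2), integral_add hr1 hr2,
    integral_const_mul]

end

lemma exists_trig_near (a : ℝ → ℝ) (ha : Continuous a) (N : ℝ) (hN : 0 < N) {ε : ℝ} (hε : 0 < ε) :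
    ∃ (A : Finset ℤ) (c : ℤ → ℂ), ∀ x : ℝ,
      ‖(a (N * Real.sin (x / N)) : ℂ) - trig A c (fun k => k / N) x‖ < ε := by
  have : Fact (0 < 2 * Real.pi) := ⟨by positivity⟩
  let g : C(AddCircle (2 * Real.pi), ℂ) :=
    ⟨fun θ => ((a (N * Real.Angle.sin θ) : ℝ) : ℂ), by
      exact Complex.continuous_ofReal.comp (ha.comp (continuous_const.mul Real.Angle.continuous_sin))⟩
  have hg : g ∈ (Submodule.span ℂ (Set.range (fourier (T := 2 * Real.pi)))).topologicalClosure := by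
    rw [span_fourier_closure_eq_top]; trivial
  rw [← SetLike.mem_coe, Submodule.topologicalClosure_coe, SeminormedAddCommGroup.mem_closure_iff] at hg
  obtain ⟨p, hp, hlt⟩ := hg ε hε
  rw [SetLike.mem_coe, Finsupp.mem_span_range_iff_exists_finsupp] at hp
  obtain ⟨c, hc⟩ := hp
  refine ⟨c.support, c, fun x => ?_⟩
  have h1 := (ContinuousMap.norm_lt_iff _ hε).1 hlt ((x / N : ℝ) : AddCircle (2 * Real.pi))
  have h2 : (g - p) ((x / N : ℝ) : AddCircle (2 * Real.pi)) =
      (a (N * Real.sin (x / N)) : ℂ) - trig c.support c (fun k => k / N) x := by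
    rw [ContinuousMap.sub_apply]
    congr 1
    rw [← hc, Finsupp.sum, trig]
    simp only [ContinuousMap.coe_sum, ContinuousMap.coe_smul, Finset.sum_apply, Pi.smul_apply,
      smul_eq_mul]
    refine Finset.sum_congr rfl fun k _ => ?_
    congr 1
    rw [fourier_coe_apply]
    congr 1
    have hpi : (Real.pi : ℂ) ≠ 0 := by exact_mod_cast Real.pi_ne_zero
    have hN' : (N : ℂ) ≠ 0 := by exact_mod_cast hN.ne'
    push_cast
    field_simp
  rw [h2] at h1
  exact h1

lemma exists_trig_approx (a : ℝ → ℝ) (ha : Continuous a) (M : ℝ) (hM : ∀ x, |a x| ≤ M) :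
    ∃ (A : ℕ → Finset ℤ) (c : ℕ → ℤ → ℂ) (t : ℕ → ℤ → ℝ),
      (∀ n x, ‖trig (A n) (c n) (t n) x‖ ≤ M + 1) ∧
      ∀ x, Filter.Tendsto (fun n => trig (A n) (c n) (t n) x) Filter.atTop (nhds (a x : ℂ)) := by
  have hpos : ∀ n : ℕ, (0 : ℝ) < n + 1 := fun n => by positivity
  choose A c h using fun n : ℕ => exists_trig_near a ha ((n : ℝ) + 1) (hpos n)
    (ε := 1 / ((n : ℝ) + 1)) (by positivity)
  refine ⟨A, c, fun n k => k / ((n : ℝ) + 1), ?_, ?_⟩
  · intro n x
    have h1 := h n x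
    have h2 : ‖((a (((n : ℝ) + 1) * Real.sin (x / ((n : ℝ) + 1))) : ℝ) : ℂ)‖ ≤ M := by
      rw [Complex.norm_real, Real.norm_eq_abs]; exact hM _
    have h3 : 1 / ((n : ℝ) + 1) ≤ 1 := by
      rw [div_le_one (hpos n)]; linarith [(Nat.cast_nonneg n : (0 : ℝ) ≤ n)]
    have h4 := norm_sub_norm_le (trig (A n) (c n) (fun k => k / ((n : ℝ) + 1)) x)
      ((a (((n : ℝ) + 1) * Real.sin (x / ((n : ℝ) + 1))) : ℝ) : ℂ)
    rw [norm_sub_rev] at h4
    linarith
  · intro x
    -- N sin (x / N) → x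
    have h1 : Filter.Tendsto (fun n : ℕ => ((n : ℝ) + 1) * Real.sin (x / ((n : ℝ) + 1)))
        Filter.atTop (nhds x) := by
      have h2 : Filter.Tendsto (fun n : ℕ => x / ((n : ℝ) + 1)) Filter.atTop (nhds 0) :=
        Filter.Tendsto.div_atTop tendsto_const_nhds
          (Filter.tendsto_atTop_add_const_right _ _ tendsto_natCast_atTop_atTop)
      have h3 : ∀ n : ℕ, |((n : ℝ) + 1) * Real.sin (x / ((n : ℝ) + 1)) - x| ≤
          |x| * |x / ((n : ℝ) + 1)| ^ 2 := by
        intro n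
        set y := x / ((n : ℝ) + 1) with hy
        have hx : x = ((n : ℝ) + 1) * y := by rw [hy]; field_simp
        have h5 : |Real.sin y - y| ≤ |y| ^ 3 := by
          have h6 := Real.abs_sub_sin_le y
          rw [abs_sub_comm] at h6
          have h7 : 0 ≤ |y| ^ 3 := by positivity
          linarith
        rw [hx, ← mul_sub, abs_mul, abs_mul, abs_of_pos (hpos n)]
        calc ((n : ℝ) + 1) * |Real.sin y - y| ≤ ((n : ℝ) + 1) * |y| ^ 3 :=
              mul_le_mul_of_nonneg_left h5 (hpos n).le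
          _ = _ := by
            have : ((n : ℝ) + 1) * y / ((n : ℝ) + 1) = y := by field_simp
            ring
      rw [tendsto_iff_norm_sub_tendsto_zero]
      refine squeeze_zero (fun n => norm_nonneg _) (fun n => h3 n) ?_
      have h4 : Filter.Tendsto (fun n : ℕ => |x| * |x / ((n : ℝ) + 1)| ^ 2) Filter.atTop
          (nhds (|x| * |(0 : ℝ)| ^ 2)) := (h2.abs.pow 2).const_mul _
      simpa using h4
    have h6 : Filter.Tendsto (fun n : ℕ =>
        ((a (((n : ℝ) + 1) * Real.sin (x / ((n : ℝ) + 1))) : ℝ) : ℂ)) Filter.atTop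
        (nhds (a x : ℂ)) :=
      (Complex.continuous_ofReal.tendsto _).comp ((ha.tendsto x).comp h1)
    have h7 : Filter.Tendsto (fun n : ℕ =>
        trig (A n) (c n) (fun k => k / ((n : ℝ) + 1)) x -
        ((a (((n : ℝ) + 1) * Real.sin (x / ((n : ℝ) + 1))) : ℝ) : ℂ)) Filter.atTop (nhds 0) := by
      rw [tendsto_zero_iff_norm_tendsto_zero]
      refine squeeze_zero (fun n => norm_nonneg _) (fun n => ?_) tendsto_one_div_add_atTop_nhds_zero_nat
      rw [norm_sub_rev]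
      exact (h n x).le
    have h8 := h7.add h6
    simpa using h8

lemma tendsto_integral_trig {m : Measure (ℝ × ℝ)} [IsProbabilityMeasure m] {a b : ℝ → ℝ}
    {M M' : ℝ} {P Q : ℕ → ℝ → ℂ} (hPc : ∀ n, Continuous (P n)) (hQc : ∀ n, Continuous (Q n))
    (hP : ∀ n x, ‖P n x‖ ≤ M) (hQ : ∀ n x, ‖Q n x‖ ≤ M')
    (hPa : ∀ x, Filter.Tendsto (fun n => P n x) Filter.atTop (nhds (a x : ℂ)))
    (hQb : ∀ x, Filter.Tendsto (fun n => Q n x) Filter.atTop (nhds (b x : ℂ))) :
    Filter.Tendsto (fun n => ∫ p : ℝ × ℝ, ‖P n p.1 - Q n p.2‖ ^ 2 ∂m) Filter.atTop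
      (nhds (∫ p : ℝ × ℝ, (a p.1 - b p.2) ^ 2 ∂m)) := by
  refine tendsto_integral_of_dominated_convergence (fun _ => (M + M') ^ 2) ?_
    (integrable_const _) ?_ ?_
  · intro n
    have h1 := hPc n
    have h2 := hQc n
    exact (by fun_prop : Continuous fun p : ℝ × ℝ => ‖P n p.1 - Q n p.2‖ ^ 2).aestronglyMeasurable
  · intro n
    refine Filter.Eventually.of_forall fun p => ?_
    rw [Real.norm_eq_abs, abs_of_nonneg (by positivity)]
    have h1 : ‖P n p.1 - Q n p.2‖ ≤ M + M' :=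
      (norm_sub_le _ _).trans (add_le_add (hP n _) (hQ n _))
    exact pow_le_pow_left₀ (norm_nonneg _) h1 2
  · refine Filter.Eventually.of_forall fun p => ?_
    have h1 := ((hPa p.1).sub (hQb p.2)).norm.pow 2
    have h2 : ‖(a p.1 : ℂ) - (b p.2 : ℂ)‖ ^ 2 = (a p.1 - b p.2) ^ 2 := by
      rw [← Complex.ofReal_sub, Complex.norm_real, Real.norm_eq_abs, sq_abs]
    rwa [h2] at h1

lemma trig_continuous {κ : Type*} (A : Finset κ) (c : κ → ℂ) (t : κ → ℝ) :
    Continuous (trig A c t) := by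
  unfold trig
  fun_prop

/-- Gebelein's inequality, in the form needed: for bounded continuous `a, b`. -/
theorem gebelein {m m0 : Measure (ℝ × ℝ)} [IsProbabilityMeasure m] [IsProbabilityMeasure m0]
    {ρ : ℝ} (hρ : |ρ| ≤ 1) (hm : IsBiv m ρ) (hm0 : IsBiv m0 0) {a b : ℝ → ℝ}
    (ha : Continuous a) (hb : Continuous b) {M M' : ℝ} (hM : ∀ x, |a x| ≤ M)
    (hM' : ∀ x, |b x| ≤ M') :
    (1 - |ρ|) * ∫ p : ℝ × ℝ, (a p.1 - b p.2) ^ 2 ∂m0 ≤ ∫ p : ℝ × ℝ, (a p.1 - b p.2) ^ 2 ∂m := by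
  obtain ⟨A, c, t, h1, h2⟩ := exists_trig_approx a ha M hM
  obtain ⟨B, q, s, h3, h4⟩ := exists_trig_approx b hb M' hM'
  have l1 := tendsto_integral_trig (m := m0) (fun n => trig_continuous (A n) (c n) (t n))
    (fun n => trig_continuous (B n) (q n) (s n)) h1 h3 h2 h4
  have l2 := tendsto_integral_trig (m := m) (fun n => trig_continuous (A n) (c n) (t n))
    (fun n => trig_continuous (B n) (q n) (s n)) h1 h3 h2 h4
  refine le_of_tendsto_of_tendsto' (l1.const_mul (1 - |ρ|)) l2 fun n => ?_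
  rw [integral_trig_sq _ _ _ _ _ _ hm, integral_trig_sq _ _ _ _ _ _ hm0]
  exact mixH_ineq _ _ _ _ _ _ ρ hρ

/-- the joint law of two normalised linear functionals -/
lemma isBiv_inner {d : ℕ} {u v : V d} (hu : ‖u‖ = 1) (hv : ‖v‖ = 1) :
    IsBiv ((stdGaussian (V d)).map (fun θ => (⟪u, θ⟫, ⟪v, θ⟫))) ⟪u, v⟫ := by
  intro t s
  rw [integral_map (by fun_prop)
    (by exact (by fun_prop : Continuous fun p : ℝ × ℝ =>
      Complex.exp ((t * p.1 - s * p.2 : ℝ) * Complex.I)).aestronglyMeasurable)]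
  have h := charFun_stdGaussian (E := V d) (t • u - s • v)
  rw [charFun_apply] at h
  have h1 : ∀ θ : V d, ⟪θ, t • u - s • v⟫ = t * ⟪u, θ⟫ - s * ⟪v, θ⟫ := by
    intro θ
    rw [inner_sub_right, inner_smul_right, inner_smul_right, real_inner_comm, real_inner_comm v θ]
  simp only [h1] at h
  rw [h]
  have h2 : ‖t • u - s • v‖ ^ 2 = t ^ 2 + s ^ 2 - 2 * t * s * ⟪u, v⟫ := by
    rw [norm_sub_sq_real, norm_smul, norm_smul, hu, hv, inner_smul_left, inner_smul_right]
    simp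
    ring
  have h3 : (-(‖t • u - s • v‖ : ℂ) ^ 2 / 2) =
      ((-(t ^ 2 + s ^ 2) / 2 + ⟪u, v⟫ * t * s : ℝ) : ℂ) := by
    rw [← Complex.ofReal_pow, h2]
    push_cast
    ring
  rw [h3, Complex.ofReal_exp]

/-- the product of two standard Gaussians -/
lemma isBiv_prod : IsBiv ((gaussianReal 0 1).prod (gaussianReal 0 1)) 0 := by
  intro t s
  have h1 : ∀ p : ℝ × ℝ, Complex.exp ((t * p.1 - s * p.2 : ℝ) * Complex.I) =
      Complex.exp ((t : ℂ) * p.1 * Complex.I) * Complex.exp (((-s : ℝ) : ℂ) * p.2 * Complex.I) := by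
    intro p
    rw [← Complex.exp_add]
    congr 1
    push_cast
    ring
  simp only [h1]
  rw [integral_prod_mul (fun x : ℝ => Complex.exp ((t : ℂ) * x * Complex.I))
    (fun x : ℝ => Complex.exp (((-s : ℝ) : ℂ) * x * Complex.I))]
  rw [← charFun_apply_real, ← charFun_apply_real, charFun_gaussianReal, charFun_gaussianReal,
    ← Complex.exp_add, Complex.ofReal_exp]
  congr 1
  push_cast
  ring

end Fil27
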