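import Mathlib
import Pool.Agent.helper27.Fil.Defs
import Pool.Agent.helper27.Fil.Gebelein

namespace Fil27

open MeasureTheory ProbabilityTheory Set
open scoped RealInnerProductSpace ENNReal

/-- the integrand of the representation of `kap` -/
noncomputable def kint (w w' l : ℝ) : ℝ := (min l w - min l w') ^ 2 / l ^ 3

lemma kint_comm (w w' l : ℝ) : kint w w' l = kint w' w l := by
  unfold kint; congr 1; ring

lemma kap_repr_aux {x y : ℝ} (hx : 0 < x) (hxy : x ≤ y) :
    ∫⁻ l in Ioi 0, ENNReal.ofReal (kint x y l) =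
      ENNReal.ofReal (kap (Real.log x - Real.log y)) := by
  have hy : 0 < y := hx.trans_le hxy
  have hsplit : Ioi (0 : ℝ) = Ioc 0 x ∪ (Ioc x y ∪ Ioi y) := by
    rw [Ioc_union_Ioi_eq_Ioi hxy, Ioc_union_Ioi_eq_Ioi hx.le]
  have hd1 : Disjoint (Ioc 0 x) (Ioc x y ∪ Ioi y) := by
    rw [Ioc_union_Ioi_eq_Ioi hxy]
    exact Set.disjoint_left.2 fun l h1 h2 => absurd h1.2 (not_le.2 h2)
  have hd2 : Disjoint (Ioc x y) (Ioi y) :=
    Set.disjoint_left.2 fun l h1 h2 => absurd h1.2 (not_le.2 h2)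
  rw [hsplit, lintegral_union (measurableSet_Ioc.union measurableSet_Ioi) hd1,
    lintegral_union measurableSet_Ioi hd2]
  -- first piece
  have p1 : ∫⁻ l in Ioc 0 x, ENNReal.ofReal (kint x y l) = 0 := by
    rw [setLIntegral_congr_fun (g := fun _ => 0) measurableSet_Ioc]
    · simp
    · intro l hl
      have h1 : l ≤ x := hl.2
      simp [kint, min_eq_left h1, min_eq_left (h1.trans hxy)]
  -- second piece
  have p2 : ∫⁻ l in Ioc x y, ENNReal.ofReal (kint x y l) =
      ENNReal.ofReal (Real.log y - Real.log x - 3 / 2 + 2 * (x / y) - (x / y) ^ 2 / 2) ∧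
      0 ≤ Real.log y - Real.log x - 3 / 2 + 2 * (x / y) - (x / y) ^ 2 / 2 := by
    have hder : ∀ l ∈ uIcc x y, HasDerivAt (fun l : ℝ => Real.log l + 2 * x * l⁻¹ -
        x ^ 2 / 2 * (l ^ 2)⁻¹) (l⁻¹ + 2 * x * (-(l ^ 2)⁻¹) - x ^ 2 / 2 * (-(2 * l) / (l ^ 2) ^ 2)) l := by
      intro l hl
      rw [uIcc_of_le hxy] at hl
      have hl0 : 0 < l := hx.trans_le hl.1
      refine ((Real.hasDerivAt_log hl0.ne').add ((hasDerivAt_inv hl0.ne').const_mul _)).sub ?_
      refine HasDerivAt.const_mul _ ?_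
      have := (hasDerivAt_pow 2 l).fun_inv (pow_ne_zero 2 hl0.ne')
      simpa using this
    have heq : ∀ l ∈ Ioc x y, kint x y l =
        l⁻¹ + 2 * x * (-(l ^ 2)⁻¹) - x ^ 2 / 2 * (-(2 * l) / (l ^ 2) ^ 2) := by
      intro l hl
      have hl0 : 0 < l := hx.trans hl.1
      rw [kint, min_eq_right hl.1.le, min_eq_left hl.2]
      field_simp
      ring
    have hcont : ContinuousOn (fun l : ℝ => l⁻¹ + 2 * x * (-(l ^ 2)⁻¹) -
        x ^ 2 / 2 * (-(2 * l) / (l ^ 2) ^ 2)) (uIcc x y) := by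
      rw [uIcc_of_le hxy]
      have : ∀ l ∈ Icc x y, l ≠ 0 := fun l hl => (hx.trans_le hl.1).ne'
      have h2 : ∀ l ∈ Icc x y, l ^ 2 ≠ 0 := fun l hl => pow_ne_zero 2 (this l hl)
      have h4 : ∀ l ∈ Icc x y, (l ^ 2) ^ 2 ≠ 0 := fun l hl => pow_ne_zero 2 (h2 l hl)
      fun_prop (disch := assumption)
    have hint : IntervalIntegrable (fun l : ℝ => l⁻¹ + 2 * x * (-(l ^ 2)⁻¹) -
        x ^ 2 / 2 * (-(2 * l) / (l ^ 2) ^ 2)) volume x y := hcont.intervalIntegrable
    have hftc := intervalIntegral.integral_eq_sub_of_hasDerivAt hder hint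
    rw [intervalIntegral.integral_of_le hxy] at hftc
    have hcongr := setIntegral_congr_fun (μ := volume) measurableSet_Ioc
      (f := fun l => kint x y l) (g := fun l : ℝ => l⁻¹ + 2 * x * (-(l ^ 2)⁻¹) -
        x ^ 2 / 2 * (-(2 * l) / (l ^ 2) ^ 2)) heq
    have hi : IntegrableOn (fun l => kint x y l) (Ioc x y) := by
      have := (intervalIntegrable_iff_integrableOn_Ioc_of_le hxy).1 hint
      exact this.congr_fun (fun l hl => (heq l hl).symm) measurableSet_Ioc
    have hval : Real.log y + 2 * x * y⁻¹ - x ^ 2 / 2 * (y ^ 2)⁻¹ -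
        (Real.log x + 2 * x * x⁻¹ - x ^ 2 / 2 * (x ^ 2)⁻¹) =
        Real.log y - Real.log x - 3 / 2 + 2 * (x / y) - (x / y) ^ 2 / 2 := by
      field_simp
      ring
    have hnn : ∀ l ∈ Ioc x y, 0 ≤ kint x y l := by
      intro l hl
      have hl0 : 0 < l := hx.trans hl.1
      simp only [kint]
      positivity
    rw [← ofReal_integral_eq_lintegral_ofReal hi
      ((ae_restrict_iff' measurableSet_Ioc).2 (Filter.Eventually.of_forall hnn)),
      ← hval, ← hftc, ← hcongr]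
    exact ⟨rfl, setIntegral_nonneg measurableSet_Ioc hnn⟩
  -- third piece
  have p3 : ∫⁻ l in Ioi y, ENNReal.ofReal (kint x y l) =
      ENNReal.ofReal (1 / 2 - x / y + (x / y) ^ 2 / 2) := by
    have hder : ∀ l ∈ Ici y, HasDerivAt (fun l : ℝ => -(y - x) ^ 2 / 2 * (l ^ 2)⁻¹)
        ((y - x) ^ 2 / l ^ 3) l := by
      intro l hl
      have hl0 : 0 < l := hy.trans_le hl
      have := ((hasDerivAt_pow 2 l).fun_inv (pow_ne_zero 2 hl0.ne')).const_mul (-(y - x) ^ 2 / 2)
      convert! this using 1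
      field_simp
      norm_num
      ring
    have hnn : ∀ l ∈ Ioi y, 0 ≤ (y - x) ^ 2 / l ^ 3 := by
      intro l hl
      have hl0 : 0 < l := hy.trans hl
      positivity
    have htend : Filter.Tendsto (fun l : ℝ => -(y - x) ^ 2 / 2 * (l ^ 2)⁻¹) Filter.atTop
        (nhds (-(y - x) ^ 2 / 2 * 0)) :=
      Filter.Tendsto.const_mul _ (tendsto_inv_atTop_zero.comp
        (Filter.tendsto_pow_atTop (two_ne_zero)))
    have hi := integrableOn_Ioi_deriv_of_nonneg' hder hnn htend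
    have hv := integral_Ioi_of_hasDerivAt_of_nonneg' hder hnn htend
    have heq : ∀ l ∈ Ioi y, kint x y l = (y - x) ^ 2 / l ^ 3 := by
      intro l hl
      have hl' : y < l := hl
      rw [kint, min_eq_right (hxy.trans hl'.le), min_eq_right hl'.le]
      ring
    rw [setLIntegral_congr_fun (g := fun l => ENNReal.ofReal ((y - x) ^ 2 / l ^ 3))
      measurableSet_Ioi (fun l hl => by simp only [heq l hl])]
    rw [← ofReal_integral_eq_lintegral_ofReal hi, hv]
    · congr 1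
      field_simp
      ring
    · exact (ae_restrict_iff' measurableSet_Ioi).2 (Filter.Eventually.of_forall hnn)
  rw [p1, p2.1, p3, zero_add, ← ENNReal.ofReal_add]
  · congr 1
    have hl : Real.log x ≤ Real.log y := Real.log_le_log hx hxy
    rw [kap, abs_of_nonpos (by linarith)]
    have : Real.exp (-(-(Real.log x - Real.log y))) = x / y := by
      rw [neg_neg, Real.exp_sub, Real.exp_log hx, Real.exp_log hy]
    rw [this]
    ring
  · exact p2.2
  · set u := x / y with hu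
    nlinarith [sq_nonneg (u - 1)]

lemma kap_neg (x : ℝ) : kap (-x) = kap x := by simp [kap]

lemma kap_repr {w w' : ℝ} (hw : 0 < w) (hw' : 0 < w') :
    ∫⁻ l in Ioi 0, ENNReal.ofReal (kint w w' l) =
      ENNReal.ofReal (kap (Real.log w - Real.log w')) := by
  rcases le_total w w' with h | h
  · exact kap_repr_aux hw h
  · rw [← kap_neg, neg_sub, ← kap_repr_aux hw' h]
    simp only [kint_comm w w']

lemma kap_nonneg (x : ℝ) : 0 ≤ kap x := by
  have := Real.add_one_le_exp (-|x|)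
  unfold kap; linarith

lemma kap_le_abs (x : ℝ) : kap x ≤ |x| := by
  have : Real.exp (-|x|) ≤ 1 := Real.exp_le_one_iff.2 (by simp)
  unfold kap; linarith

lemma continuous_kap : Continuous kap := by unfold kap; fun_prop

lemma kapaux_mono {u v : ℝ} (hu : 0 ≤ u) (huv : u ≤ v) :
    u - 1 + Real.exp (-u) ≤ v - 1 + Real.exp (-v) := by
  have h1 : Real.exp (-v) = Real.exp (-u) * Real.exp (-(v - u)) := by
    rw [← Real.exp_add]; congr 1; ring
  have h2 := Real.add_one_le_exp (-(v - u))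
  have h3 : Real.exp (-u) ≤ 1 := Real.exp_le_one_iff.2 (by linarith)
  have h4 : Real.exp (-(v - u)) ≤ 1 := Real.exp_le_one_iff.2 (by linarith)
  have h5 := Real.exp_pos (-u)
  rw [h1]
  nlinarith

lemma kap_midpoint (D δ : ℝ) : 2 * kap D ≤ kap (δ + D) + kap (D - δ) := by
  have h1 : |D| ≤ (|δ + D| + |D - δ|) / 2 := by
    have := abs_add_le (δ + D) (D - δ)
    have h2 : |δ + D + (D - δ)| = 2 * |D| := by
      rw [show δ + D + (D - δ) = 2 * D by ring, abs_mul]; norm_num
    linarith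
  have h2 := kapaux_mono (abs_nonneg D) h1
  set a := |δ + D| with ha
  set b := |D - δ| with hb
  have h3 : Real.exp (-((a + b) / 2)) ≤ (Real.exp (-a) + Real.exp (-b)) / 2 := by
    have e1 : Real.exp (-((a + b) / 2)) = Real.exp (-a / 2) * Real.exp (-b / 2) := by
      rw [← Real.exp_add]; congr 1; ring
    have e2 : Real.exp (-a) = Real.exp (-a / 2) ^ 2 := by
      rw [← Real.exp_nat_mul]; congr 1; push_cast; ring
    have e3 : Real.exp (-b) = Real.exp (-b / 2) ^ 2 := by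
      rw [← Real.exp_nat_mul]; congr 1; push_cast; ring
    rw [e1, e2, e3]
    nlinarith [sq_nonneg (Real.exp (-a / 2) - Real.exp (-b / 2))]
  unfold kap
  rw [← ha, ← hb]
  linarith

section
variable {m : Measure (ℝ × ℝ)} [IsProbabilityMeasure m] {f g : ℝ → ℝ}

lemma kap_lintegral (hf : Continuous f) (hg : Continuous g) (hf0 : ∀ x, 0 < f x)
    (hg0 : ∀ x, 0 < g x) :
    ∫⁻ p : ℝ × ℝ, ENNReal.ofReal (kap (Real.log (f p.1) - Real.log (g p.2))) ∂m =
      ∫⁻ l in Ioi 0, ∫⁻ p : ℝ × ℝ, ENNReal.ofReal (kint (f p.1) (g p.2) l) ∂m := by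
  have h1 : ∀ p : ℝ × ℝ, ENNReal.ofReal (kap (Real.log (f p.1) - Real.log (g p.2))) =
      ∫⁻ l in Ioi 0, ENNReal.ofReal (kint (f p.1) (g p.2) l) := fun p =>
    (kap_repr (hf0 _) (hg0 _)).symm
  simp only [h1]
  rw [lintegral_lintegral_swap]
  refine Measurable.aemeasurable ?_
  have hfm := hf.measurable
  have hgm := hg.measurable
  unfold Function.uncurry kint
  fun_prop

lemma kint_lintegral_ge {m0 : Measure (ℝ × ℝ)} [IsProbabilityMeasure m0] {ρ : ℝ} (hρ : |ρ| ≤ 1)
    (hm : IsBiv m ρ) (hm0 : IsBiv m0 0) (hf : Continuous f) (hg : Continuous g)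
    (hf0 : ∀ x, 0 < f x) (hg0 : ∀ x, 0 < g x) {l : ℝ} (hl : 0 < l) :
    ENNReal.ofReal (1 - |ρ|) * ∫⁻ p : ℝ × ℝ, ENNReal.ofReal (kint (f p.1) (g p.2) l) ∂m0 ≤
      ∫⁻ p : ℝ × ℝ, ENNReal.ofReal (kint (f p.1) (g p.2) l) ∂m := by
  have hcf : Continuous fun x => min l (f x) := continuous_const.min hf
  have hcg : Continuous fun x => min l (g x) := continuous_const.min hg
  have hbf : ∀ x, |min l (f x)| ≤ l := fun x => by
    rw [abs_of_pos (lt_min hl (hf0 x))]; exact min_le_left _ _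
  have hbg : ∀ x, |min l (g x)| ≤ l := fun x => by
    rw [abs_of_pos (lt_min hl (hg0 x))]; exact min_le_left _ _
  have hG := gebelein hρ hm hm0 hcf hcg hbf hbg
  have hl3 : 0 < l ^ 3 := by positivity
  have key : ∀ (M : Measure (ℝ × ℝ)) [IsProbabilityMeasure M],
      ∫⁻ p : ℝ × ℝ, ENNReal.ofReal (kint (f p.1) (g p.2) l) ∂M =
      ENNReal.ofReal ((∫ p : ℝ × ℝ, (min l (f p.1) - min l (g p.2)) ^ 2 ∂M) / l ^ 3) := by
    intro M _
    have hi : Integrable (fun p : ℝ × ℝ => (min l (f p.1) - min l (g p.2)) ^ 2) M := by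
      refine Integrable.mono' (integrable_const ((2 * l) ^ 2)) ?_ ?_
      · exact (by fun_prop : Continuous fun p : ℝ × ℝ =>
          (min l (f p.1) - min l (g p.2)) ^ 2).aestronglyMeasurable
      · refine Filter.Eventually.of_forall fun p => ?_
        rw [Real.norm_eq_abs, abs_of_nonneg (sq_nonneg _)]
        refine sq_le_sq' ?_ ?_
        · have := hbf p.1; have := hbg p.2; rw [abs_le] at *; linarith
        · have := hbf p.1; have := hbg p.2; rw [abs_le] at *; linarith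
    rw [← integral_div, ofReal_integral_eq_lintegral_ofReal (hi.div_const _)]
    · rfl
    · refine Filter.Eventually.of_forall fun p => ?_
      simp only [Pi.zero_apply]
      positivity
  rw [key m, key m0, ← ENNReal.ofReal_mul (by linarith), ← mul_div_assoc]
  exact ENNReal.ofReal_le_ofReal (div_le_div_of_nonneg_right hG hl3.le)

lemma kap_integral_ge {m0 : Measure (ℝ × ℝ)} [IsProbabilityMeasure m0] {ρ : ℝ} (hρ : |ρ| ≤ 1)
    (hm : IsBiv m ρ) (hm0 : IsBiv m0 0) (hf : Continuous f) (hg : Continuous g)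
    (hf0 : ∀ x, 0 < f x) (hg0 : ∀ x, 0 < g x)
    (i1 : Integrable (fun p : ℝ × ℝ => Real.log (f p.1) - Real.log (g p.2)) m)
    (i2 : Integrable (fun p : ℝ × ℝ => Real.log (f p.1) - Real.log (g p.2)) m0) :
    (1 - |ρ|) * ∫ p : ℝ × ℝ, kap (Real.log (f p.1) - Real.log (g p.2)) ∂m0 ≤
      ∫ p : ℝ × ℝ, kap (Real.log (f p.1) - Real.log (g p.2)) ∂m := by
  have hik : ∀ (M : Measure (ℝ × ℝ)),
      Integrable (fun p : ℝ × ℝ => Real.log (f p.1) - Real.log (g p.2)) M →
      Integrable (fun p : ℝ × ℝ => kap (Real.log (f p.1) - Real.log (g p.2))) M := by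
    intro M hM
    refine Integrable.mono hM (continuous_kap.comp_aestronglyMeasurable hM.1) ?_
    refine Filter.Eventually.of_forall fun p => ?_
    rw [Real.norm_eq_abs, Real.norm_eq_abs, abs_of_nonneg (kap_nonneg _)]
    exact kap_le_abs _
  have j1 := hik m i1
  have j2 := hik m0 i2
  have hnn : 0 ≤ ∫ p : ℝ × ℝ, kap (Real.log (f p.1) - Real.log (g p.2)) ∂m :=
    integral_nonneg fun p => kap_nonneg _
  rw [← ENNReal.ofReal_le_ofReal_iff hnn, ENNReal.ofReal_mul (by linarith),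
    ofReal_integral_eq_lintegral_ofReal j1 (Filter.Eventually.of_forall fun p => kap_nonneg _),
    ofReal_integral_eq_lintegral_ofReal j2 (Filter.Eventually.of_forall fun p => kap_nonneg _),
    kap_lintegral hf hg hf0 hg0, kap_lintegral hf hg hf0 hg0, ← lintegral_const_mul']
  · refine setLIntegral_mono' measurableSet_Ioi fun l hl => ?_
    exact kint_lintegral_ge hρ hm hm0 hf hg hf0 hg0 hl
  · exact ENNReal.ofReal_ne_top

end

/-- the final pair bound -/
theorem pair_bound {r : ℝ → ℝ} (hr : Continuous r) (hr0 : ∀ x, 0 < r x)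
    (hi : Integrable (fun x => Real.log (r x)) (gaussianReal 0 1)) {d : ℕ} {u v : V d}
    (hu : u ≠ 0) (hv : v ≠ 0) :
    Integrable (fun θ : V d => kap (Real.log (‖u‖ * r (⟪u, θ⟫ / ‖u‖)) -
      Real.log (‖v‖ * r (⟪v, θ⟫ / ‖v‖)))) (stdGaussian (V d)) ∧
    (1 - |⟪u, v⟫| / (‖u‖ * ‖v‖)) *
      (∫ x, ∫ y, kap (Real.log (r x) - Real.log (r y)) ∂(gaussianReal 0 1) ∂(gaussianReal 0 1)) ≤
    ∫ θ : V d, kap (Real.log (‖u‖ * r (⟪u, θ⟫ / ‖u‖)) -
      Real.log (‖v‖ * r (⟪v, θ⟫ / ‖v‖))) ∂(stdGaussian (V d)) := by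
  have hnu : 0 < ‖u‖ := norm_pos_iff.2 hu
  have hnv : 0 < ‖v‖ := norm_pos_iff.2 hv
  -- normalised vectors
  set u' := (‖u‖)⁻¹ • u with hu'
  set v' := (‖v‖)⁻¹ • v with hv'
  have hun : ‖u'‖ = 1 := by rw [hu', norm_smul, norm_inv, norm_norm, inv_mul_cancel₀ hnu.ne']
  have hvn : ‖v'‖ = 1 := by rw [hv', norm_smul, norm_inv, norm_norm, inv_mul_cancel₀ hnv.ne']
  have hiu : ∀ θ : V d, ⟪u, θ⟫ / ‖u‖ = ⟪u', θ⟫ := by
    intro θ; rw [hu', real_inner_smul_left, div_eq_inv_mul]
  have hiv : ∀ θ : V d, ⟪v, θ⟫ / ‖v‖ = ⟪v', θ⟫ := by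
    intro θ; rw [hv', real_inner_smul_left, div_eq_inv_mul]
  set ρ : ℝ := ⟪u', v'⟫ with hρdef
  have hρeq : |⟪u, v⟫| / (‖u‖ * ‖v‖) = |ρ| := by
    rw [hρdef, hu', hv', real_inner_smul_left, real_inner_smul_right, abs_mul, abs_mul,
      abs_of_pos (inv_pos.2 hnu), abs_of_pos (inv_pos.2 hnv)]
    field_simp
  have hρ : |ρ| ≤ 1 := by
    have := abs_real_inner_le_norm u' v'
    rwa [hun, hvn, one_mul] at this
  set m : Measure (ℝ × ℝ) := (stdGaussian (V d)).map (fun θ => (⟪u', θ⟫, ⟪v', θ⟫)) with hm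
  have hmeas : Measurable fun θ : V d => ((⟪u', θ⟫, ⟪v', θ⟫) : ℝ × ℝ) := by fun_prop
  have : IsProbabilityMeasure m := Measure.isProbabilityMeasure_map hmeas.aemeasurable
  set m0 : Measure (ℝ × ℝ) := (gaussianReal 0 1).prod (gaussianReal 0 1) with hm0
  have hb : IsBiv m ρ := isBiv_inner hun hvn
  have hb0 : IsBiv m0 0 := isBiv_prod
  set f : ℝ → ℝ := fun x => ‖u‖ * r x with hf
  set g : ℝ → ℝ := fun x => ‖v‖ * r x with hg
  have hfc : Continuous f := continuous_const.mul hr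
  have hgc : Continuous g := continuous_const.mul hr
  have hf0 : ∀ x, 0 < f x := fun x => mul_pos hnu (hr0 x)
  have hg0 : ∀ x, 0 < g x := fun x => mul_pos hnv (hr0 x)
  have hlogf : ∀ x, Real.log (f x) = Real.log ‖u‖ + Real.log (r x) := fun x =>
    Real.log_mul hnu.ne' (hr0 x).ne'
  have hlogg : ∀ x, Real.log (g x) = Real.log ‖v‖ + Real.log (r x) := fun x =>
    Real.log_mul hnv.ne' (hr0 x).ne'
  have hif : Integrable (fun x => Real.log (f x)) (gaussianReal 0 1) := by
    simp only [hlogf]; exact (integrable_const _).add hi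
  have hig : Integrable (fun x => Real.log (g x)) (gaussianReal 0 1) := by
    simp only [hlogg]; exact (integrable_const _).add hi
  -- integrability under m
  have mp1 := mp_inner hun
  have mp2 := mp_inner hvn
  have iθ : Integrable (fun θ : V d => Real.log (f ⟪u', θ⟫) - Real.log (g ⟪v', θ⟫))
      (stdGaussian (V d)) :=
    (mp1.integrable_comp_of_integrable hif).sub (mp2.integrable_comp_of_integrable hig)
  have hcont : Continuous fun p : ℝ × ℝ => Real.log (f p.1) - Real.log (g p.2) := by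
    have h1 : Continuous fun x => Real.log (f x) := hfc.log fun x => (hf0 x).ne'
    have h2 : Continuous fun x => Real.log (g x) := hgc.log fun x => (hg0 x).ne'
    exact (h1.comp continuous_fst).sub (h2.comp continuous_snd)
  have i1 : Integrable (fun p : ℝ × ℝ => Real.log (f p.1) - Real.log (g p.2)) m := by
    rw [hm, integrable_map_measure hcont.aestronglyMeasurable hmeas.aemeasurable]
    exact iθ
  have i2 : Integrable (fun p : ℝ × ℝ => Real.log (f p.1) - Real.log (g p.2)) m0 :=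
    (hif.comp_fst _).sub (hig.comp_snd _)
  have hmain := kap_integral_ge hρ hb hb0 hfc hgc hf0 hg0 i1 i2
  have hmap : ∫ p : ℝ × ℝ, kap (Real.log (f p.1) - Real.log (g p.2)) ∂m =
      ∫ θ : V d, kap (Real.log (f ⟪u', θ⟫) - Real.log (g ⟪v', θ⟫)) ∂(stdGaussian (V d)) := by
    rw [hm]
    exact integral_map (f := fun p : ℝ × ℝ => kap (Real.log (f p.1) - Real.log (g p.2)))
      hmeas.aemeasurable (continuous_kap.comp hcont).aestronglyMeasurable
  have ik : ∀ {Ω : Type} [MeasurableSpace Ω] (M : Measure Ω) (F : Ω → ℝ), Integrable F M →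
      Integrable (fun p => kap (F p)) M := by
    intro Ω _ M F hM
    refine Integrable.mono hM (continuous_kap.comp_aestronglyMeasurable hM.1) ?_
    refine Filter.Eventually.of_forall fun p => ?_
    rw [Real.norm_eq_abs, Real.norm_eq_abs, abs_of_nonneg (kap_nonneg _)]
    exact kap_le_abs _
  simp only [hiu, hiv, hρeq]
  refine ⟨ik _ _ iθ, ?_⟩
  change _ ≤ ∫ θ : V d, kap (Real.log (f ⟪u', θ⟫) - Real.log (g ⟪v', θ⟫)) ∂(stdGaussian (V d))
  rw [← hmap]
  refine le_trans (mul_le_mul_of_nonneg_left ?_ (by linarith)) hmain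
  -- symmetrisation
  set L : ℝ → ℝ := fun x => Real.log (r x) with hL
  set δ := Real.log ‖u‖ - Real.log ‖v‖ with hδ
  have e1 : ∀ p : ℝ × ℝ, Real.log (f p.1) - Real.log (g p.2) = δ + (L p.1 - L p.2) := by
    intro p; rw [hlogf, hlogg, hδ, hL]; ring
  simp only [e1] at i2 ⊢
  have iL : Integrable (fun p : ℝ × ℝ => L p.1 - L p.2) m0 := (hi.comp_fst _).sub (hi.comp_snd _)
  have i3 : Integrable (fun p : ℝ × ℝ => (L p.1 - L p.2) - δ) m0 := iL.sub (integrable_const _)
  have k1 := ik _ _ i2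
  have k2 := ik _ _ i3
  have k3 := ik _ _ iL
  have hswap : ∫ p : ℝ × ℝ, kap (δ + (L p.1 - L p.2)) ∂m0 =
      ∫ p : ℝ × ℝ, kap ((L p.1 - L p.2) - δ) ∂m0 := by
    rw [hm0, ← integral_prod_swap]
    refine integral_congr_ae (Filter.Eventually.of_forall fun p => ?_)
    simp only [Prod.fst_swap, Prod.snd_swap]
    rw [← kap_neg]; congr 1; ring
  have hmid : 2 * ∫ p : ℝ × ℝ, kap (L p.1 - L p.2) ∂m0 ≤
      ∫ p : ℝ × ℝ, kap (δ + (L p.1 - L p.2)) ∂m0 + ∫ p : ℝ × ℝ, kap ((L p.1 - L p.2) - δ) ∂m0 := by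
    rw [← integral_const_mul, ← integral_add k1 k2]
    exact integral_mono (k3.const_mul 2) (k1.add k2) fun p => kap_midpoint _ _
  have hprod : ∫ p : ℝ × ℝ, kap (L p.1 - L p.2) ∂m0 =
      ∫ x, ∫ y, kap (Real.log (r x) - Real.log (r y)) ∂(gaussianReal 0 1) ∂(gaussianReal 0 1) := by
    rw [hm0, integral_prod _ k3]
  rw [← hprod]
  linarith

end Fil27
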