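import Mathlib
import Pool.Agent.helper27.Fil.Defs
import Pool.Agent.helper27.Fil.K1

namespace Fil27

open MeasureTheory ProbabilityTheory
open scoped RealInnerProductSpace

variable {ι : Type*} [Fintype ι] {d : ℕ}

/-- the transport map -/
noncomputable def tmap (E : ℝ → ℝ) (z : ι → V d) (θ : V d) : V d :=
  ∑ i, (‖z i‖ ^ 2 * E (⟪z i, θ⟫ / ‖z i‖)) • z i

/-- its derivative -/
noncomputable def tmap' (r : ℝ → ℝ) (z : ι → V d) (θ : V d) : V d →L[ℝ] V d :=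
  ∑ i, (‖z i‖ * r (⟪z i, θ⟫ / ‖z i‖)) • ((innerSL ℝ (z i)).smulRight (z i))

lemma tmap_hasFDerivAt {E r : ℝ → ℝ} (hE : ∀ x, HasDerivAt E (r x) x) {z : ι → V d}
    (hz : ∀ i, z i ≠ 0) (θ : V d) : HasFDerivAt (tmap E z) (tmap' r z θ) θ := by
  unfold tmap tmap'
  refine HasFDerivAt.fun_sum fun i _ => ?_
  have hn : ‖z i‖ ≠ 0 := norm_ne_zero_iff.2 (hz i)
  have h1 : HasFDerivAt (fun θ : V d => ⟪z i, θ⟫ / ‖z i‖) ((‖z i‖)⁻¹ • innerSL ℝ (z i)) θ := by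
    have := ((innerSL ℝ (z i)).hasFDerivAt (x := θ)).const_mul (‖z i‖)⁻¹
    simpa [div_eq_inv_mul] using this
  have h2 : HasFDerivAt (fun θ : V d => ‖z i‖ ^ 2 * E (⟪z i, θ⟫ / ‖z i‖))
      (‖z i‖ ^ 2 • (r (⟪z i, θ⟫ / ‖z i‖) • ((‖z i‖)⁻¹ • innerSL ℝ (z i)))) θ :=
    ((hE _).comp_hasFDerivAt θ h1).const_mul _
  have h3 := h2.smul_const (z i)
  convert! h3 using 1
  ext1 y
  simp only [smul_apply, ContinuousLinearMap.smulRight_apply, smul_smul,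
    smul_eq_mul]
  congr 1
  field_simp

lemma tmap'_det {r : ℝ → ℝ} {z : ι → V d} (θ : V d) :
    (tmap' r z θ).det = (frameM (fun i => ‖z i‖ * r (⟪z i, θ⟫ / ‖z i‖)) z).det := by
  have h1 : (tmap' r z θ).det = LinearMap.det (tmap' r z θ : V d →ₗ[ℝ] V d) := rfl
  rw [h1, ← LinearMap.det_toMatrix (EuclideanSpace.basisFun (Fin d) ℝ).toBasis]
  congr 1
  ext a b
  rw [LinearMap.toMatrix_apply]
  simp [tmap', frameM, inner_eq, mul_comm, mul_assoc]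

omit [Fintype ι] in
lemma ne_zero_of_h {h : V d →ₗ[ℝ] ℝ} {z : ι → V d} (hz : ∀ i, h (z i) = 1) (i : ι) : z i ≠ 0 := by
  intro h0
  have := hz i
  rw [h0, map_zero] at this
  exact zero_ne_one this

lemma tmap_injective {E r : ℝ → ℝ} (hE : ∀ x, HasDerivAt E (r x) x) (hr : ∀ x, 0 < r x)
    {z : ι → V d} (hz : ∀ i, z i ≠ 0) (hI : frameM (fun _ => 1) z = 1) :
    Function.Injective (tmap E z) := by
  have hmono : StrictMono E := strictMono_of_hasDerivAt_pos hE hr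
  intro θ θ' heq
  by_contra hne
  have h1 : ⟪θ - θ', tmap E z θ - tmap E z θ'⟫ = 0 := by rw [heq, sub_self, inner_zero_right]
  have h2 : ⟪θ - θ', tmap E z θ - tmap E z θ'⟫ = ∑ i, ‖z i‖ ^ 2 *
      ((E (⟪z i, θ⟫ / ‖z i‖) - E (⟪z i, θ'⟫ / ‖z i‖)) * (⟪z i, θ⟫ - ⟪z i, θ'⟫)) := by
    simp only [tmap]
    rw [← Finset.sum_sub_distrib, inner_sum]
    refine Finset.sum_congr rfl fun i _ => ?_
    rw [← sub_smul, inner_smul_right, real_inner_comm (z i) (θ - θ'), inner_sub_right]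
    ring
  rw [h2] at h1
  have hnn : ∀ i ∈ Finset.univ, 0 ≤ ‖z i‖ ^ 2 *
      ((E (⟪z i, θ⟫ / ‖z i‖) - E (⟪z i, θ'⟫ / ‖z i‖)) * (⟪z i, θ⟫ - ⟪z i, θ'⟫)) := by
    intro i _
    have hn : 0 < ‖z i‖ := norm_pos_iff.2 (hz i)
    refine mul_nonneg (sq_nonneg _) ?_
    rcases le_total ⟪z i, θ⟫ ⟪z i, θ'⟫ with hle | hle
    · have := hmono.monotone (div_le_div_of_nonneg_right hle hn.le)
      exact mul_nonneg_of_nonpos_of_nonpos (by linarith) (by linarith)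
    · have := hmono.monotone (div_le_div_of_nonneg_right hle hn.le)
      exact mul_nonneg (by linarith) (by linarith)
  have h3 := (Finset.sum_eq_zero_iff_of_nonneg hnn).1 h1
  have h4 : ∀ i, ⟪z i, θ - θ'⟫ = 0 := by
    intro i
    have hn : 0 < ‖z i‖ := norm_pos_iff.2 (hz i)
    have h5 := h3 i (Finset.mem_univ _)
    rw [mul_eq_zero] at h5
    rcases h5 with h5 | h5
    · exact absurd h5 (pow_ne_zero _ hn.ne')
    rw [mul_eq_zero] at h5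
    rw [inner_sub_right]
    rcases h5 with h5 | h5
    · have h6 : E (⟪z i, θ⟫ / ‖z i‖) = E (⟪z i, θ'⟫ / ‖z i‖) := by linarith
      have h7 := hmono.injective h6
      have h8 : ⟪z i, θ⟫ = ⟪z i, θ'⟫ := by
        field_simp at h7
        exact h7
      linarith
    · exact h5
  have h9 : ⟪θ - θ', θ - θ'⟫ = 0 := by
    rw [← parseval hI]
    refine Finset.sum_eq_zero fun i _ => ?_
    rw [h4 i, zero_mul]
  rw [inner_self_eq_zero] at h9
  exact hne (sub_eq_zero.1 h9)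

lemma tmap_mem_cone {E : ℝ → ℝ} (hE0 : ∀ x, 0 ≤ E x) (z : ι → V d) (θ : V d) :
    tmap E z θ ∈ coneOf z :=
  ⟨fun i => ‖z i‖ ^ 2 * E (⟪z i, θ⟫ / ‖z i‖), fun i => mul_nonneg (sq_nonneg _) (hE0 _), rfl⟩

theorem transport {E r : ℝ → ℝ} (hE : ∀ x, HasDerivAt E (r x) x) (hE0 : ∀ x, 0 ≤ E x)
    (hr : ∀ x, 0 < r x) {h : V d →ₗ[ℝ] ℝ} {z : ι → V d} (hz : ∀ i, h (z i) = 1)
    (hI : frameM (fun _ => 1) z = 1) :
    ∫⁻ θ : V d, ENNReal.ofReal (frameM (fun i => ‖z i‖ * r (⟪z i, θ⟫ / ‖z i‖)) z).det *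
      ENNReal.ofReal (Real.exp (-∑ i, ‖z i‖ ^ 2 * E (⟪z i, θ⟫ / ‖z i‖))) ≤ coneInt h z := by
  have hz0 := ne_zero_of_h hz
  have h1 := lintegral_image_eq_lintegral_abs_det_fderiv_mul (volume : Measure (V d))
    MeasurableSet.univ (fun θ _ => (tmap_hasFDerivAt hE hz0 θ).hasFDerivWithinAt)
    (tmap_injective hE hr hz0 hI).injOn (fun y => ENNReal.ofReal (Real.exp (-(h y))))
  have h2 : ∫⁻ y in (tmap E z) '' Set.univ, ENNReal.ofReal (Real.exp (-(h y))) ≤ coneInt h z := by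
    refine lintegral_mono_set ?_
    rintro _ ⟨θ, -, rfl⟩
    exact tmap_mem_cone hE0 z θ
  refine le_trans (le_of_eq ?_) (h1.symm.le.trans h2)
  rw [Measure.restrict_univ]
  refine lintegral_congr fun θ => ?_
  have hpos : 0 < (frameM (fun i => ‖z i‖ * r (⟪z i, θ⟫ / ‖z i‖)) z).det :=
    Matrix.PosDef.det_pos (frameM_posDef hI fun i => mul_pos (norm_pos_iff.2 (hz0 i)) (hr _))
  rw [tmap'_det, abs_of_pos hpos]
  congr 3
  simp [tmap, hz]

end Fil27
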