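import Mathlib
import Pool.Agent.helper27.Fil.Defs
import Pool.Agent.helper27.Fil.K1
import Pool.Agent.helper27.Fil.Transport
import Pool.Agent.helper27.Fil.Gauss
import Pool.Agent.helper27.Fil.Kappa

namespace Fil27

open MeasureTheory ProbabilityTheory
open scoped RealInnerProductSpace

variable {ι : Type*} [Fintype ι] {d : ℕ}

lemma sum_normsq {z : ι → V d} (hI : frameM (fun _ => 1) z = 1) : ∑ i, ‖z i‖ ^ 2 = d := by
  have h4 : (frameM (fun _ => 1) z).trace = d := by rw [hI]; simp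
  rw [← h4]
  simp only [Matrix.trace, Matrix.diag, frameM, Matrix.of_apply, one_mul]
  rw [Finset.sum_comm]
  refine Finset.sum_congr rfl fun i _ => ?_
  rw [← real_inner_self_eq_norm_sq, inner_eq]

/-- the core estimate for abstract transport functions -/
theorem core_abs [DecidableEq ι] {E r : ℝ → ℝ} (hE : ∀ x, HasDerivAt E (r x) x)
    (hE0 : ∀ x, 0 ≤ E x) (hr : Continuous r) (hr0 : ∀ x, 0 < r x)
    (iE : Integrable E (gaussianReal 0 1)) (eE : ∫ x, E x ∂(gaussianReal 0 1) = 1)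
    (ir : Integrable (fun x => Real.log (r x)) (gaussianReal 0 1))
    (er : ∫ x, Real.log (r x) ∂(gaussianReal 0 1) = 1 / 2 - 1 / 2 * Real.log (2 * Real.pi))
    (h : V d →ₗ[ℝ] ℝ) (z : ι → V d) (hz : ∀ i, h (z i) = 1) (hI : frameM (fun _ => 1) z = 1) :
    ENNReal.ofReal (Real.exp (1 / 2 * (∑ i, ‖z i‖ ^ 2 * Real.log (‖z i‖ ^ 2) +
      (∫ x, ∫ y, kap (Real.log (r x) - Real.log (r y)) ∂(gaussianReal 0 1) ∂(gaussianReal 0 1)) *
      ∑ i, ∑ j ∈ Finset.univ.erase i,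
        ⟪z i, z j⟫ ^ 2 * (1 - |⟪z i, z j⟫| / (‖z i‖ * ‖z j‖))))) ≤ coneInt h z := by
  have hz0 := ne_zero_of_h hz
  have hn : ∀ i, 0 < ‖z i‖ := fun i => norm_pos_iff.2 (hz0 i)
  set gm := ∫ x, ∫ y, kap (Real.log (r x) - Real.log (r y)) ∂(gaussianReal 0 1) ∂(gaussianReal 0 1)
    with hgm
  set w : V d → ι → ℝ := fun θ i => ‖z i‖ * r (⟪z i, θ⟫ / ‖z i‖) with hw
  have hw0 : ∀ θ i, 0 < w θ i := fun θ i => mul_pos (hn i) (hr0 _)
  set k : V d → ι → ι → ℝ := fun θ i j => kap (Real.log (w θ i) - Real.log (w θ j)) with hk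
  set g : V d → ℝ := fun θ => (∑ i, ‖z i‖ ^ 2 * Real.log (w θ i) +
      1 / 2 * ∑ i, ∑ j, ⟪z i, z j⟫ ^ 2 * k θ i j) - ∑ i, ‖z i‖ ^ 2 * E (⟪z i, θ⟫ / ‖z i‖) with hg
  set G : V d → ℝ := fun θ => g θ + (‖θ‖ ^ 2 / 2 + d / 2 * Real.log (2 * Real.pi)) with hG
  -- step 1: lower bound by the integral of exp g
  have s1 : ∫⁻ θ : V d, ENNReal.ofReal (Real.exp (g θ)) ≤ coneInt h z := by
    refine le_trans (lintegral_mono fun θ => ?_) (transport hE hE0 hr0 hz hI)
    have hdet : 0 < (frameM (w θ) z).det := Matrix.PosDef.det_pos (frameM_posDef hI (hw0 θ))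
    rw [← ENNReal.ofReal_mul hdet.le]
    refine ENNReal.ofReal_le_ofReal ?_
    rw [hg, Real.exp_sub, Real.exp_neg, div_eq_mul_inv]
    refine mul_le_mul_of_nonneg_right ?_ (by positivity)
    rw [← Real.le_log_iff_exp_le hdet]
    exact K1 hI (hw0 θ)
  -- step 2: to the Gaussian measure
  have hlogw : ∀ θ i, Real.log (w θ i) = Real.log ‖z i‖ + Real.log (r (⟪z i, θ⟫ / ‖z i‖)) :=
    fun θ i => Real.log_mul (hn i).ne' (hr0 _).ne'
  have mp := fun i => mp_innerdiv (hz0 i)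
  have i_log : ∀ i, Integrable (fun θ : V d => Real.log (r (⟪z i, θ⟫ / ‖z i‖)))
      (stdGaussian (V d)) := fun i => (mp i).integrable_comp_of_integrable ir
  have i_E : ∀ i, Integrable (fun θ : V d => E (⟪z i, θ⟫ / ‖z i‖))
      (stdGaussian (V d)) := fun i => (mp i).integrable_comp_of_integrable iE
  have i_w : ∀ i, Integrable (fun θ => Real.log (w θ i)) (stdGaussian (V d)) := by
    intro i
    simp only [hlogw]
    exact (integrable_const _).add (i_log i)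
  have i_k : ∀ i j, Integrable (fun θ => k θ i j) (stdGaussian (V d)) := fun i j =>
    (pair_bound hr hr0 ir (hz0 i) (hz0 j)).1
  have e_log : ∀ i, ∫ θ : V d, Real.log (r (⟪z i, θ⟫ / ‖z i‖)) ∂(stdGaussian (V d)) =
      1 / 2 - 1 / 2 * Real.log (2 * Real.pi) := by
    intro i
    rw [← er, ← (mp i).map_eq, integral_map (mp i).aemeasurable]
    exact (hr.log fun x => (hr0 x).ne').aestronglyMeasurable
  have hEc : Continuous E := continuous_iff_continuousAt.2 fun x => (hE x).continuousAt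
  have e_E : ∀ i, ∫ θ : V d, E (⟪z i, θ⟫ / ‖z i‖) ∂(stdGaussian (V d)) = 1 := by
    intro i
    rw [← eE, ← (mp i).map_eq, integral_map (mp i).aemeasurable hEc.aestronglyMeasurable]
  have e_w : ∀ i, ∫ θ, Real.log (w θ i) ∂(stdGaussian (V d)) =
      Real.log ‖z i‖ + (1 / 2 - 1 / 2 * Real.log (2 * Real.pi)) := by
    intro i
    simp only [hlogw]
    rw [integral_add (integrable_const _) (i_log i), e_log, integral_const]
    simp
  have i_1 : Integrable (fun θ => ∑ i, ‖z i‖ ^ 2 * Real.log (w θ i)) (stdGaussian (V d)) :=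
    integrable_finsetSum _ fun i _ => (i_w i).const_mul _
  have i_2 : Integrable (fun θ => 1 / 2 * ∑ i, ∑ j, ⟪z i, z j⟫ ^ 2 * k θ i j)
      (stdGaussian (V d)) :=
    (integrable_finsetSum _ fun i _ => integrable_finsetSum _ fun j _ => (i_k i j).const_mul _).const_mul _
  have i_3 : Integrable (fun θ => ∑ i, ‖z i‖ ^ 2 * E (⟪z i, θ⟫ / ‖z i‖)) (stdGaussian (V d)) :=
    integrable_finsetSum _ fun i _ => (i_E i).const_mul _
  have i_g : Integrable g (stdGaussian (V d)) := (i_1.add i_2).sub i_3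
  have i_4 : Integrable (fun θ : V d => ‖θ‖ ^ 2 / 2 + d / 2 * Real.log (2 * Real.pi))
      (stdGaussian (V d)) := (integrable_normsq.div_const 2).add (integrable_const _)
  have i_G : Integrable G (stdGaussian (V d)) := i_g.add i_4
  have s2 : ∫⁻ θ : V d, ENNReal.ofReal (Real.exp (G θ)) ∂(stdGaussian (V d)) ≤
      ∫⁻ θ : V d, ENNReal.ofReal (Real.exp (g θ)) := by
    rw [stdG_density]
    refine (lintegral_withDensity_le_lintegral_mul _ dens_measurable.ennreal_ofReal _).trans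
      (le_of_eq ?_)
    refine lintegral_congr fun θ => ?_
    simp only [Pi.mul_apply]
    rw [← ENNReal.ofReal_mul (dens_pos θ).le]
    congr 1
    rw [dens, ← Real.exp_add]
    congr 1
    simp only [hG]
    ring
  have s3 := jensen_exp i_G
  refine le_trans ?_ (s3.trans (s2.trans s1))
  refine ENNReal.ofReal_le_ofReal (Real.exp_le_exp.2 ?_)
  -- compute the integral
  have v1 : ∫ θ, (∑ i, ‖z i‖ ^ 2 * Real.log (w θ i)) ∂(stdGaussian (V d)) =
      ∑ i, ‖z i‖ ^ 2 * (Real.log ‖z i‖ + (1 / 2 - 1 / 2 * Real.log (2 * Real.pi))) := by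
    rw [integral_finsetSum _ fun i _ => (i_w i).const_mul _]
    refine Finset.sum_congr rfl fun i _ => ?_
    rw [integral_const_mul, e_w]
  have v2 : ∫ θ, (1 / 2 * ∑ i, ∑ j, ⟪z i, z j⟫ ^ 2 * k θ i j) ∂(stdGaussian (V d)) =
      1 / 2 * ∑ i, ∑ j, ⟪z i, z j⟫ ^ 2 * ∫ θ, k θ i j ∂(stdGaussian (V d)) := by
    rw [integral_const_mul, integral_finsetSum _ fun i _ =>
      integrable_finsetSum _ fun j _ => (i_k i j).const_mul _]
    congr 1
    refine Finset.sum_congr rfl fun i _ => ?_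
    rw [integral_finsetSum _ fun j _ => (i_k i j).const_mul _]
    refine Finset.sum_congr rfl fun j _ => ?_
    rw [integral_const_mul]
  have v3 : ∫ θ : V d, (∑ i, ‖z i‖ ^ 2 * E (⟪z i, θ⟫ / ‖z i‖)) ∂(stdGaussian (V d)) = d := by
    rw [integral_finsetSum _ fun i _ => (i_E i).const_mul _]
    simp only [integral_const_mul, e_E, mul_one]
    exact sum_normsq hI
  have v4 : ∫ θ : V d, (‖θ‖ ^ 2 / 2 + d / 2 * Real.log (2 * Real.pi)) ∂(stdGaussian (V d)) =
      d / 2 + d / 2 * Real.log (2 * Real.pi) := by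
    rw [integral_add (integrable_normsq.div_const 2) (integrable_const _), integral_div,
      integral_normsq hz0 (fun x => ?_), sum_normsq hI, integral_const]
    · simp
    · rw [← parseval_norm hI x]
      refine Finset.sum_congr rfl fun j _ => ?_
      rw [real_inner_comm]
  have vG : ∫ θ, G θ ∂(stdGaussian (V d)) = ∑ i, ‖z i‖ ^ 2 * Real.log ‖z i‖ +
      1 / 2 * ∑ i, ∑ j, ⟪z i, z j⟫ ^ 2 * ∫ θ, k θ i j ∂(stdGaussian (V d)) := by
    have a1 : ∫ θ, G θ ∂(stdGaussian (V d)) = ∫ θ, g θ ∂(stdGaussian (V d)) +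
        ∫ θ : V d, (‖θ‖ ^ 2 / 2 + d / 2 * Real.log (2 * Real.pi)) ∂(stdGaussian (V d)) :=
      integral_add i_g i_4
    have a2 : ∫ θ, g θ ∂(stdGaussian (V d)) =
        ∫ θ, (∑ i, ‖z i‖ ^ 2 * Real.log (w θ i) +
          1 / 2 * ∑ i, ∑ j, ⟪z i, z j⟫ ^ 2 * k θ i j) ∂(stdGaussian (V d)) -
        ∫ θ : V d, (∑ i, ‖z i‖ ^ 2 * E (⟪z i, θ⟫ / ‖z i‖)) ∂(stdGaussian (V d)) :=
      integral_sub (by exact i_1.add i_2) i_3
    have a3 : ∫ θ, (∑ i, ‖z i‖ ^ 2 * Real.log (w θ i) +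
          1 / 2 * ∑ i, ∑ j, ⟪z i, z j⟫ ^ 2 * k θ i j) ∂(stdGaussian (V d)) =
        ∫ θ, (∑ i, ‖z i‖ ^ 2 * Real.log (w θ i)) ∂(stdGaussian (V d)) +
        ∫ θ, (1 / 2 * ∑ i, ∑ j, ⟪z i, z j⟫ ^ 2 * k θ i j) ∂(stdGaussian (V d)) :=
      integral_add i_1 i_2
    rw [a1, a2, a3, v1, v2, v3, v4]
    simp only [mul_add, Finset.sum_add_distrib, ← Finset.sum_mul]
    rw [sum_normsq hI]
    ring
  rw [vG]
  have hlog2 : ∑ i, ‖z i‖ ^ 2 * Real.log (‖z i‖ ^ 2) = 2 * ∑ i, ‖z i‖ ^ 2 * Real.log ‖z i‖ := by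
    rw [Finset.mul_sum]
    refine Finset.sum_congr rfl fun i _ => ?_
    rw [Real.log_pow]; push_cast; ring
  have hpair : gm * ∑ i, ∑ j ∈ Finset.univ.erase i,
        ⟪z i, z j⟫ ^ 2 * (1 - |⟪z i, z j⟫| / (‖z i‖ * ‖z j‖)) ≤
      ∑ i, ∑ j, ⟪z i, z j⟫ ^ 2 * ∫ θ, k θ i j ∂(stdGaussian (V d)) := by
    rw [Finset.mul_sum]
    refine Finset.sum_le_sum fun i _ => ?_
    have hnn : ∀ j, 0 ≤ ⟪z i, z j⟫ ^ 2 * ∫ θ, k θ i j ∂(stdGaussian (V d)) := fun j =>
      mul_nonneg (sq_nonneg _) (integral_nonneg fun θ => kap_nonneg _)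
    refine le_trans ?_ (Finset.sum_le_sum_of_subset_of_nonneg (Finset.erase_subset i Finset.univ)
      fun j _ _ => hnn j)
    rw [Finset.mul_sum]
    refine Finset.sum_le_sum fun j _ => ?_
    rw [mul_left_comm]
    refine mul_le_mul_of_nonneg_left ?_ (sq_nonneg _)
    rw [mul_comm]
    exact (pair_bound hr hr0 ir (hz0 i) (hz0 j)).2
  rw [hlog2]
  linarith

end Fil27
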